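import Mathlib

/-!
# Maximum clique in disk graphs: polynomial families of perfect pieces do not cover

FIXED definitions (do not change).
-/

namespace PBar

/-- `B` induces a perfect graph: for every induced subgraph of `G` on a subset of `B`, the
chromatic number equals the clique number. -/
def Perf {V : Type} (G : SimpleGraph V) (B : Set V) : Prop :=
  ∀ A : Set V, A ⊆ B → (G.induce A).chromaticNumber = (G.induce A).cliqueNum

/-- `B` contains `k` pairwise disjoint sets of vertices on each of which the complement of `G`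
is not bipartite (that is, the complement of `G` has `k` vertex-disjoint odd cycles in `B`). -/
def OddPack {V : Type} (G : SimpleGraph V) (B : Set V) (k : ℕ) : Prop :=
  ∃ f : Fin k → Set V, (∀ i j, i ≠ j → Disjoint (f i) (f j)) ∧
    ∀ i, f i ⊆ B ∧ ¬ (Gᶜ.induce (f i)).Colorable 2

/-- The complement of the graph induced by `B` contains no induced `t × t` grid. -/
def GridFree {V : Type} (G : SimpleGraph V) (B : Set V) (t : ℕ) : Prop :=
  IsEmpty ((SimpleGraph.pathGraph t □ SimpleGraph.pathGraph t) ↪g (Gᶜ.induce B))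

/-- The intersection graph of the closed disks with centres `(x i, y i)` and radii `r i`. -/
def diskG {ι : Type} (x y r : ι → ℚ) : SimpleGraph ι where
  Adj i j := i ≠ j ∧ (x i - x j) ^ 2 + (y i - y j) ^ 2 ≤ (r i + r j) ^ 2
  symm := by
    constructor
    rintro i j ⟨h, h2⟩
    refine ⟨h.symm, ?_⟩
    have e1 : (x j - x i) ^ 2 + (y j - y i) ^ 2 = (x i - x j) ^ 2 + (y i - y j) ^ 2 := by ring
    rw [e1, add_comm (r j) (r i)]
    exact h2
  loopless := ⟨fun i h => h.1 rfl⟩

/-- Main vertices: `4m+1` cyclic columns and `6mw` levels. -/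
abbrev Vt (m w : ℕ) : Type := ZMod (4 * m + 1) × Fin (6 * m * w)

/-- The level of `b`, an integer from `-3mw` to `3mw-1`. -/
def lv (m w : ℕ) (b : Fin (6 * m * w)) : ℤ := (b.val : ℤ) - 3 * m * w

/-- The block of `b`: levels `wa..wa+w-1` and `-w(a+1)..-wa-1` form block `a`. -/
def blk (m w : ℕ) (b : Fin (6 * m * w)) : ℤ := max (lv m w b) (-1 - lv m w b) / (w : ℤ)

/-- The main graph. -/
def Hg (m w : ℕ) : SimpleGraph (Vt m w) where
  Adj p q := p ≠ q ∧ (q.1 = p.1 + 1 ∨ p.1 = q.1 + 1) ∧
    -(w : ℤ) ≤ lv m w p.2 + lv m w q.2 ∧ lv m w p.2 + lv m w q.2 < w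
  symm := by
    constructor
    rintro p q ⟨h, h2, h3, h4⟩
    exact ⟨h.symm, h2.symm, by rw [add_comm]; exact h3, by rw [add_comm]; exact h4⟩
  loopless := ⟨fun p h => h.1 rfl⟩

/-- A pendant vertex `inr v` is attached to every vertex `inl v`. -/
def Pg {V : Type} (H : SimpleGraph V) : SimpleGraph (V ⊕ V) where
  Adj a b := (∃ v u, a = Sum.inl v ∧ b = Sum.inl u ∧ H.Adj v u) ∨
    (∃ v, a = Sum.inl v ∧ b = Sum.inr v) ∨ (∃ v, a = Sum.inr v ∧ b = Sum.inl v)
  symm := by
    constructor
    rintro a b (⟨v, u, h1, h2, h3⟩ | ⟨v, h1, h2⟩ | ⟨v, h1, h2⟩)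
    · exact Or.inl ⟨u, v, h2, h1, h3.symm⟩
    · exact Or.inr (Or.inr ⟨v, h2, h1⟩)
    · exact Or.inr (Or.inl ⟨v, h2, h1⟩)
  loopless := by
    constructor
    rintro a (⟨v, u, h1, h2, h3⟩ | ⟨v, h1, h2⟩ | ⟨v, h1, h2⟩)
    · rw [h1] at h2
      exact h3.ne (Sum.inl_injective h2)
    · rw [h1] at h2
      exact absurd h2 (by simp)
    · rw [h1] at h2
      exact absurd h2 (by simp)

/-- The quantity whose sign decides whether the disks of polar angles `φ, φ'`, heights `t, t'`
and apertures `B, B'` are disjoint (positive) or overlap (negative). -/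
noncomputable def Dq (φ t B φ' t' B' : ℝ) : ℝ :=
  -Real.cos (φ - φ') + Real.sin B * Real.sin B' - Real.cos B * Real.cos B' * Real.cosh (t + t')

/-- Distance of the centre of the disk of height `t` and aperture `B` from the origin. -/
noncomputable def rho (t B : ℝ) : ℝ := 1 / (Real.sin B + Real.cos B * Real.sinh t)

/-- Height parameter of a main disk. -/
noncomputable def ht (m w : ℕ) (τ : ℝ) (b : Fin (6 * m * w)) : ℝ :=
  τ * ((lv m w b : ℝ) + 1 / 4) / w

end PBar
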