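import Mathlib

/-!
# Frac (S-M): the fraction of colorings in which `v` is selected and its neighbours are not

PROOF. `q = 8w`. The functions `c` with `c v = 0` and `c u ≠ 0` for `u ∈ N` (`v ∉ N`) form the
`Fintype.piFinset` of the sets `{0}` (at `v`), `{0}ᶜ` (at `u ∈ N`), `univ` elsewhere, so their
number `Y` satisfies `Y * q * q ^ |N| = (q-1)^|N| * q^|V|` (`Fintype.card_piFinset`, product
over `v`, `N` and the rest). By Bernoulli (`one_add_mul_le_pow` with `a = -1/q` over ℝ) and
`|N| <= 4w`: `(q-1)^|N| * 2 >= q^|N|`, because `(1 - 1/q)^d >= 1 - d/q >= 1 - 4w/(8w) = 1/2`. Hence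
`Y * 2q >= q^|V|`, i.e. `Y * (16w) >= q^|V|`. The number `X` of the other functions is
`q^|V| - Y`, so `X * (16w) <= 16w q^|V| - q^|V| = (16w-1) q^|V|`.
-/

namespace PBar

private theorem prod_ite_pow {V : Type} [Fintype V] [DecidableEq V] (N : Finset V) (a : ℕ) :
    (∏ x : V, if x ∈ N then a else 1) = a ^ N.card := by
  rw [Finset.prod_ite_mem, Finset.univ_inter, Finset.prod_const]

private theorem bern (q d : ℕ) (hd : 2 * d ≤ q) : q ^ d ≤ 2 * (q - 1) ^ d := by
  rcases Nat.eq_zero_or_pos q with hq | hq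
  · subst hq
    have : d = 0 := by omega
    subst this
    norm_num
  obtain ⟨p, rfl⟩ : ∃ p, q = p + 1 := ⟨q - 1, by omega⟩
  simp only [Nat.add_sub_cancel]
  have hq0 : (0 : ℝ) < (p : ℝ) + 1 := by positivity
  have h1 : (1 : ℝ) + (d : ℝ) * (-(1 / ((p : ℝ) + 1))) ≤ (1 + (-(1 / ((p : ℝ) + 1)))) ^ d := by
    apply one_add_mul_le_pow
    have : 1 / ((p : ℝ) + 1) ≤ 1 := by
      rw [div_le_one hq0]
      have : (0 : ℝ) ≤ p := Nat.cast_nonneg p
      linarith
    linarith
  have h2 : (1 : ℝ) / 2 ≤ 1 + (d : ℝ) * (-(1 / ((p : ℝ) + 1))) := by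
    have h3 : (d : ℝ) * (1 / ((p : ℝ) + 1)) ≤ 1 / 2 := by
      rw [mul_one_div, div_le_div_iff₀ hq0 (by norm_num)]
      have : (2 * d : ℝ) ≤ (p + 1 : ℕ) := by exact_mod_cast hd
      push_cast at this
      linarith
    linarith
  have h4 : (1 + (-(1 / ((p : ℝ) + 1)))) = (p : ℝ) / (p + 1) := by
    field_simp
    ring
  rw [h4, div_pow] at h1
  have h5 : (1 : ℝ) / 2 ≤ (p : ℝ) ^ d / ((p : ℝ) + 1) ^ d := le_trans h2 h1
  rw [div_le_div_iff₀ (by norm_num) (by positivity)] at h5
  have h6 : (((p + 1) ^ d : ℕ) : ℝ) ≤ ((2 * p ^ d : ℕ) : ℝ) := by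
    push_cast
    linarith
  exact_mod_cast h6

open Classical in
private theorem frac_aux {V : Type} [Fintype V] (q : ℕ) (hq : 0 < q) (z : Fin q) (v : V)
    (N : Finset V) (hv : v ∉ N) (hN : 2 * N.card ≤ q) :
    (Finset.univ.filter (fun c : V → Fin q => ¬ (c v = z ∧ ∀ u ∈ N, c u ≠ z))).card *
      (2 * q) ≤ (2 * q - 1) * q ^ Fintype.card V := by
  set P : (V → Fin q) → Prop := fun c => c v = z ∧ ∀ u ∈ N, c u ≠ z with hP
  have hsum := Finset.card_filter_add_card_filter_not (s := (Finset.univ : Finset (V → Fin q))) P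
  rw [Finset.card_univ, Fintype.card_fun, Fintype.card_fin] at hsum
  -- the number of selected functions
  set S : V → Finset (Fin q) := fun x => if x = v then {z} else if x ∈ N then {z}ᶜ else Finset.univ
    with hS
  have hY : Finset.univ.filter P = Fintype.piFinset S := by
    ext c
    rw [Finset.mem_filter, Fintype.mem_piFinset]
    simp only [Finset.mem_univ, true_and, hP, hS]
    constructor
    · rintro ⟨h1, h2⟩ x
      by_cases hx : x = v
      · subst hx
        simp [h1]
      · by_cases hx2 : x ∈ N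
        · simp [hx, hx2, h2 x hx2]
        · simp [hx, hx2]
    · intro h
      refine ⟨by simpa using h v, fun u hu => ?_⟩
      have hne : u ≠ v := fun e => hv (e ▸ hu)
      have := h u
      rw [if_neg hne, if_pos hu] at this
      simpa using this
  have hYc : (Finset.univ.filter P).card = ∏ x, (S x).card := by
    rw [hY, Fintype.card_piFinset]
  have hprod : (∏ x, (S x).card) * q ^ (N.card + 1) = (q - 1) ^ N.card * q ^ Fintype.card V := by
    have e1 : q ^ (N.card + 1) = ∏ x : V, (if x ∈ insert v N then q else 1) := by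
      rw [prod_ite_pow, Finset.card_insert_of_notMem hv]
    have e2 : (q - 1) ^ N.card = ∏ x : V, (if x ∈ N then q - 1 else 1) := by
      rw [prod_ite_pow]
    have e3 : q ^ Fintype.card V = ∏ _x : V, q := by
      rw [Finset.prod_const, Finset.card_univ]
    rw [e1, e2, e3, ← Finset.prod_mul_distrib, ← Finset.prod_mul_distrib]
    refine Finset.prod_congr rfl fun x _ => ?_
    simp only [hS]
    by_cases hx : x = v
    · subst hx
      simp [hv]
    · by_cases hx2 : x ∈ N
      · simp [hx, hx2, Finset.card_compl]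
      · simp [hx, hx2]
  have hb : q ^ N.card ≤ 2 * (q - 1) ^ N.card := bern q N.card hN
  have hY2 : q ^ Fintype.card V ≤ (Finset.univ.filter P).card * (2 * q) := by
    rw [hYc]
    have hqN : 0 < q ^ N.card := pow_pos hq _
    refine Nat.le_of_mul_le_mul_left (?_ : q ^ N.card * _ ≤ q ^ N.card * _) hqN
    have e : q ^ N.card * ((∏ x, (S x).card) * (2 * q)) =
        2 * ((∏ x, (S x).card) * q ^ (N.card + 1)) := by
      rw [pow_succ]
      ring
    rw [e, hprod, ← mul_assoc]
    exact Nat.mul_le_mul_right _ hb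
  have hX : (Finset.univ.filter (fun c : V → Fin q => ¬ P c)).card * (2 * q) +
      q ^ Fintype.card V ≤ 2 * q * q ^ Fintype.card V := by
    calc (Finset.univ.filter (fun c : V → Fin q => ¬ P c)).card * (2 * q) +
        q ^ Fintype.card V ≤ (Finset.univ.filter (fun c : V → Fin q => ¬ P c)).card * (2 * q) +
          (Finset.univ.filter P).card * (2 * q) := Nat.add_le_add_left hY2 _
      _ = ((Finset.univ.filter P).card +
          (Finset.univ.filter (fun c : V → Fin q => ¬ P c)).card) * (2 * q) := by ring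
      _ = q ^ Fintype.card V * (2 * q) := by rw [hsum]
      _ = 2 * q * q ^ Fintype.card V := by ring
  have hfin : (2 * q - 1) * q ^ Fintype.card V + q ^ Fintype.card V =
      2 * q * q ^ Fintype.card V := by
    have : 2 * q = (2 * q - 1) + 1 := by omega
    conv_rhs => rw [this, Nat.add_mul, one_mul]
  have e : Finset.univ.filter (fun c : V → Fin q => ¬ (c v = z ∧ ∀ u ∈ N, c u ≠ z)) =
      Finset.univ.filter (fun c : V → Fin q => ¬ P c) := by
    ext c
    simp only [Finset.mem_filter, Finset.mem_univ, true_and, hP]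
  rw [e]
  omega


open Classical in
theorem frac {V : Type} [Fintype V] (w : ℕ) (hw : 1 ≤ w) (z : Fin (8 * w)) (v : V) (N : Finset V)
    (hv : v ∉ N) (hN : N.card ≤ 4 * w) :
    (Finset.univ.filter (fun c : V → Fin (8 * w) => ¬ (c v = z ∧ ∀ u ∈ N, c u ≠ z))).card *
      (16 * w) ≤ (16 * w - 1) * (8 * w) ^ Fintype.card V := by
  have h := frac_aux (8 * w) (by omega) z v N hv (by omega)
  have e : 2 * (8 * w) = 16 * w := by ring
  rw [e] at h
  exact h

end PBar
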