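import Pool.Agent.Work.MP_a5c73b_lc.PB.Defs

/-!
# HDeg (S): degrees of the main graph

PROOF. A neighbour `u` of `v` has `u.1 = v.1 + 1` or `u.1 = v.1 - 1`, and
`lv u.2 ∈ [-w - lv v.2, w - 1 - lv v.2]`, an interval of `2w` integers; `lv` is injective. So the
neighbours inject into `{v.1 + 1, v.1 - 1} ×ˢ Finset.Ico (-w - lv v.2) (w - lv v.2)`, a set with at
most `2 * (2w)` elements.
-/

namespace PBar

theorem hg_deg (m w : ℕ) (v : Vt m w) (S : Finset (Vt m w)) (hS : ∀ u ∈ S, (Hg m w).Adj v u) :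
    S.card ≤ 4 * w := by
  classical
  have hlv : ∀ b, lv m w b = (b.val : ℤ) - 3 * m * w := fun b => rfl
  have hsub : S.image (fun u => (u.1, lv m w u.2)) ⊆
      ({v.1 + 1, v.1 - 1} : Finset (ZMod (4 * m + 1))) ×ˢ
        Finset.Ico (-(w : ℤ) - lv m w v.2) (w - lv m w v.2) := by
    intro p hp
    obtain ⟨u, hu, rfl⟩ := Finset.mem_image.1 hp
    obtain ⟨-, h1, h2, h3⟩ := hS u hu
    rw [Finset.mem_product]
    refine ⟨?_, ?_⟩
    · rw [Finset.mem_insert, Finset.mem_singleton]
      rcases h1 with h | h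
      · exact Or.inl h
      · right
        show u.1 = v.1 - 1
        rw [h, add_sub_cancel_right]
    · rw [Finset.mem_Ico]
      constructor
      · show -(w : ℤ) - lv m w v.2 ≤ lv m w u.2
        linarith
      · show lv m w u.2 < (w : ℤ) - lv m w v.2
        linarith
  have hinj : Set.InjOn (fun u : Vt m w => (u.1, lv m w u.2)) S := by
    intro a _ b _ hab
    have hab' : (a.1, lv m w a.2) = (b.1, lv m w b.2) := hab
    obtain ⟨e1, e2⟩ := Prod.mk.inj hab'
    rw [hlv, hlv] at e2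
    have e3 : a.2 = b.2 := by
      apply Fin.ext
      have e4 : (a.2.val : ℤ) = b.2.val := by linarith
      exact_mod_cast e4
    exact Prod.ext e1 e3
  have hc := Finset.card_le_card hsub
  rw [Finset.card_image_of_injOn hinj, Finset.card_product, Int.card_Ico] at hc
  have h2 : ({v.1 + 1, v.1 - 1} : Finset (ZMod (4 * m + 1))).card ≤ 2 := Finset.card_le_two
  have h3 : ((w : ℤ) - lv m w v.2 - (-(w : ℤ) - lv m w v.2)).toNat = 2 * w := by
    have h4 : (w : ℤ) - lv m w v.2 - (-(w : ℤ) - lv m w v.2) = ((2 * w : ℕ) : ℤ) := by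
      push_cast
      ring
    rw [h4, Int.toNat_natCast]
  rw [h3] at hc
  calc S.card ≤ _ := hc
    _ ≤ 2 * (2 * w) := Nat.mul_le_mul_right _ h2
    _ = 4 * w := by ring

end PBar
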