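import Pool.Agent.Work.MP_a5c73b_lc.PB.Indep

/-!
# IndepM (S-M): several events depending on disjoint sets of coordinates

PROOF. Induction on `m`. `m = 0`: both sides are `q ^ |V|`. Step: apply the induction hypothesis
to the first `m` events (`Fin.castSucc`), `A` = number of `c` satisfying them, so
`A * D^m <= E^m * q^|V|`. With `P c = E_m c` (the last event, `Fin.last m`) and `Q` = the
conjunction of the others, `indep` with `S = N (last)` (the others do not depend on `S`
by disjointness: if `c = d` outside `S` then `c = d` on each `N i`, `i < m`) gives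
`X * q^|V| = B * A`, `X` the number of `c` satisfying everything, `B * D <= E * q^|V|`. So
`X * q^|V| * D^(m+1) = (B * D) * (A * D^m) <= E * q^|V| * E^m * q^|V|`; divide by `q^|V|`, which
is positive (`q >= 1`).
-/

namespace PBar

private theorem card_inst {α : Type*} [Fintype α] (P : α → Prop) (i1 i2 : DecidablePred P) :
    (@Finset.filter α P i1 Finset.univ).card = (@Finset.filter α P i2 Finset.univ).card := by
  rw [Subsingleton.elim i1 i2]

open Classical in
theorem indep_many {V : Type} [Fintype V] (q : ℕ) (hq : 1 ≤ q) (m D E : ℕ) (N : Fin m → Set V)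
    (hN : ∀ i i', i ≠ i' → Disjoint (N i) (N i')) (P : Fin m → (V → Fin q) → Prop)
    (hP : ∀ i, ∀ c d : V → Fin q, (∀ v ∈ N i, c v = d v) → (P i c ↔ P i d))
    (hD : ∀ i, (Finset.univ.filter (P i)).card * D ≤ E * q ^ Fintype.card V) :
    (Finset.univ.filter (fun c => ∀ i, P i c)).card * D ^ m ≤ E ^ m * q ^ Fintype.card V := by
  induction m with
  | zero =>
    simp only [pow_zero, mul_one, one_mul]
    refine (Finset.card_filter_le _ _).trans ?_
    rw [Finset.card_univ, Fintype.card_fun, Fintype.card_fin]
  | succ m ih =>
    have hind := indep q (N (Fin.last m)) (P (Fin.last m))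
      (fun c => ∀ i : Fin m, P i.castSucc c) (hP (Fin.last m)) (by
        intro c d hcd
        refine forall_congr' fun i => hP i.castSucc c d ?_
        intro v hv
        apply hcd
        intro hv'
        exact Set.disjoint_left.1 (hN i.castSucc (Fin.last m) (Fin.castSucc_lt_last i).ne) hv hv')
    have hih := ih (fun i => N i.castSucc)
      (fun i i' hii => hN _ _ (fun h => hii (Fin.castSucc_injective m h)))
      (fun i => P i.castSucc) (fun i => hP i.castSucc) (fun i => hD i.castSucc)
    have hl := hD (Fin.last m)
    have e1 : (Finset.univ.filter (fun c : V → Fin q => ∀ i, P i c)) =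
        Finset.univ.filter (fun c : V → Fin q => P (Fin.last m) c ∧
          ∀ i : Fin m, P i.castSucc c) := by
      ext c
      rw [Finset.mem_filter, Finset.mem_filter, Fin.forall_fin_succ', and_comm
        (a := ∀ i : Fin m, P i.castSucc c)]
    rw [e1]
    have hpos : 0 < q ^ Fintype.card V := pow_pos hq _
    have hind' : (Finset.univ.filter (fun c : V → Fin q => P (Fin.last m) c ∧
          ∀ i : Fin m, P i.castSucc c)).card * q ^ Fintype.card V =
        (Finset.univ.filter (P (Fin.last m))).card *
          (Finset.univ.filter (fun c : V → Fin q => ∀ i : Fin m, P i.castSucc c)).card :=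
      (congrArg (· * q ^ Fintype.card V) (card_inst _ _ _)).trans (hind.trans
        (congrArg ((Finset.univ.filter (P (Fin.last m))).card * ·) (card_inst _ _ _)))
    revert hl hih hind' hpos
    generalize (Finset.univ.filter (fun c : V → Fin q => P (Fin.last m) c ∧
          ∀ i : Fin m, P i.castSucc c)).card = X
    generalize (Finset.univ.filter (P (Fin.last m))).card = B
    generalize (Finset.univ.filter (fun c : V → Fin q => ∀ i : Fin m, P i.castSucc c)).card = A
    generalize q ^ Fintype.card V = T
    intro hih hl hpos hind'
    have hm := Nat.mul_le_mul hl hih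
    have e2 : B * D * (A * D ^ m) = X * D ^ (m + 1) * T := by
      calc B * D * (A * D ^ m) = (B * A) * D ^ (m + 1) := by ring
        _ = (X * T) * D ^ (m + 1) := by rw [hind']
        _ = X * D ^ (m + 1) * T := by ring
    have e3 : E * T * (E ^ m * T) = E ^ (m + 1) * T * T := by ring
    rw [e2, e3] at hm
    exact Nat.le_of_mul_le_mul_right hm hpos

end PBar
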