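import Pool.Agent.Work.MP_a5c73b_lc.PB.Defs
import Pool.Agent.Work.MP_a5c73b_lc.PB.HDeg
import Pool.Agent.Work.MP_a5c73b_lc.PB.IndepM
import Pool.Agent.Work.MP_a5c73b_lc.PB.Frac

/-!
# CntT (S-M): few colorings miss `m` far apart vertices

PROOF. `indep_many` with `q = 8w`, `D = 16w`, `E = 16w - 1`,
`N i = {u | u = f i ∨ Adj (f i) u}` (pairwise disjoint by `hd`) and
`P i c = ¬ (c (f i) = z ∧ ∀ u, Adj (f i) u → c u ≠ z)`, which depends only on `N i`. The
hypothesis `hD` is `frac` for `v = f i`, `N` = the finset of neighbours of `f i`, which has at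
most `4w` elements by `hg_deg` and does not contain `f i`.
-/

namespace PBar

private theorem card_inst2 {α : Type*} (F1 F2 : Fintype α) (P : α → Prop)
    (i1 i2 : DecidablePred P) :
    (@Finset.filter α P i1 (@Finset.univ α F1)).card =
      (@Finset.filter α P i2 (@Finset.univ α F2)).card := by
  rw [Subsingleton.elim i1 i2, Subsingleton.elim F1 F2]

open Classical in
theorem cnt_t (M m w : ℕ) (hw : 1 ≤ w) (z : Fin (8 * w)) (f : Fin m → Vt M w)
    (hd : ∀ i i', i ≠ i' → ∀ u,
      (u = f i ∨ (Hg M w).Adj (f i) u) → (u = f i' ∨ (Hg M w).Adj (f i') u) → False) :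
    (Finset.univ.filter (fun c : Vt M w → Fin (8 * w) =>
      ∀ i, ¬ (c (f i) = z ∧ ∀ u, (Hg M w).Adj (f i) u → c u ≠ z))).card * (16 * w) ^ m ≤
      (16 * w - 1) ^ m * (8 * w) ^ Fintype.card (Vt M w) := by
  have h := indep_many (8 * w) (by omega) m (16 * w) (16 * w - 1)
    (fun i => {u | u = f i ∨ (Hg M w).Adj (f i) u})
    (fun i i' hii => Set.disjoint_left.2 fun u h1 h2 => hd i i' hii u h1 h2)
    (fun i c => ¬ (c (f i) = z ∧ ∀ u, (Hg M w).Adj (f i) u → c u ≠ z))
    (by
      intro i c d hcd
      have h1 : c (f i) = d (f i) := hcd _ (Or.inl rfl)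
      have h2 : ∀ u, (Hg M w).Adj (f i) u → c u = d u := fun u hu => hcd _ (Or.inr hu)
      rw [h1]
      apply not_congr
      apply and_congr_right
      intro _
      refine forall_congr' fun u => ?_
      constructor
      · intro h3 hu
        rw [← h2 u hu]
        exact h3 hu
      · intro h3 hu
        rw [h2 u hu]
        exact h3 hu)
    (by
      intro i
      have h1 := frac w hw z (f i) (Finset.univ.filter fun u => (Hg M w).Adj (f i) u)
        (by
          rw [Finset.mem_filter]
          intro h2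
          exact (Hg M w).irrefl h2.2)
        (hg_deg M w (f i) _ (by
          intro u hu
          exact (Finset.mem_filter.1 hu).2))
      simp only [Finset.mem_filter, Finset.mem_univ, true_and] at h1
      exact (congrArg (· * (16 * w)) (card_inst2 _ _ _ _ _)).le.trans h1)
  exact (congrArg (· * (16 * w) ^ m) (card_inst2 _ _ _ _ _)).le.trans h

end PBar
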