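import Pool.Agent.Work.MP_a5c73b_lc.PB.Defs

/-!
# HTri (S): the main graph has no triangle

PROOF. Let `p, q, s` be pairwise adjacent, with columns `a, b, c` in `ZMod (4m+1)`. Then
`b - a`, `c - b`, `a - c` are all `1` or `-1` and their sum is zero; the sum of three numbers
`1` or `-1` is `1, -1, 3` or `-3`, none of which is zero in `ZMod (4m+1)` because
`4m+1 >= 5` does not divide them. (`SimpleGraph.is3Clique_iff`; for the last step
`(ZMod.intCast_zmod_eq_zero_iff_dvd ..)`, or `ZMod.intCast_eq_intCast_iff_dvd_sub`.)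
-/

namespace PBar

theorem hg_tri (m w : ℕ) (hm : 1 ≤ m) : (Hg m w).CliqueFree 3 := by
  intro s hs
  rw [SimpleGraph.is3Clique_iff] at hs
  obtain ⟨p, q, r, hpq, hpr, hqr, rfl⟩ := hs
  have key : ∀ x y : Vt m w, (Hg m w).Adj x y → ∃ e : ℤ, (e = 1 ∨ e = -1) ∧
      y.1 = x.1 + (e : ZMod (4 * m + 1)) := by
    intro x y hxy
    obtain ⟨-, h | h, -⟩ := hxy
    · exact ⟨1, Or.inl rfl, by rw [h]; push_cast; rfl⟩
    · exact ⟨-1, Or.inr rfl, by rw [h]; push_cast; ring⟩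
  obtain ⟨e1, h1, k1⟩ := key _ _ hpq
  obtain ⟨e2, h2, k2⟩ := key _ _ hqr
  obtain ⟨e3, h3, k3⟩ := key _ _ hpr
  have hz : ((e1 + e2 - e3 : ℤ) : ZMod (4 * m + 1)) = 0 := by
    push_cast
    have : p.1 + (e1 : ZMod (4 * m + 1)) + (e2 : ZMod (4 * m + 1)) = p.1 + (e3 : ZMod (4 * m + 1)) := by
      rw [← k1, ← k2, k3]
    linear_combination this
  rw [ZMod.intCast_zmod_eq_zero_iff_dvd] at hz
  obtain ⟨c, hc⟩ := hz
  push_cast at hc
  have hm' : (1 : ℤ) ≤ m := by exact_mod_cast hm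
  have hb : -3 ≤ e1 + e2 - e3 ∧ e1 + e2 - e3 ≤ 3 ∧ e1 + e2 - e3 ≠ 0 := by
    rcases h1 with rfl | rfl <;> rcases h2 with rfl | rfl <;> rcases h3 with rfl | rfl <;> norm_num
  obtain ⟨b1, b2, b3⟩ := hb
  rw [hc] at b1 b2 b3
  have hc0 : c ≠ 0 := by
    intro h
    rw [h] at b3
    exact b3 (by ring)
  rcases lt_or_gt_of_ne hc0 with h | h
  · nlinarith
  · nlinarith

end PBar
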