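import Pool.Agent.Work.MP_a5c73b_lc.PB.Defs

/-!
# Lay (S): some layer is co-bipartite

PROOF. `layer`: if not, the sets `f j = {a | a ∈ B ∧ g a = j}` are pairwise disjoint,
contained in `B`, and the complement of `G` is not 2-colorable on them, so they witness
`OddPack G B w`.
-/

namespace PBar

theorem layer {V : Type} (G : SimpleGraph V) (B : Set V) (w : ℕ) (g : V → Fin w)
    (h : ¬ OddPack G B w) : ∃ j : Fin w, (Gᶜ.induce {a | a ∈ B ∧ g a = j}).Colorable 2 := by
  by_contra hcon
  push Not at hcon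
  apply h
  refine ⟨fun j => {a | a ∈ B ∧ g a = j}, ?_, fun j => ⟨fun a ha => ha.1, hcon j⟩⟩
  intro i j hij
  rw [Set.disjoint_left]
  rintro a ⟨_, h1⟩ ⟨_, h2⟩
  exact hij (h1.symm.trans h2)

end PBar
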