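import Pool.Agent.Work.MP_a5c73b_lc.PB.Defs

/-!
# Pend (S-M): the graph with pendants

PROOF of `pg_tri`. Among three pairwise adjacent vertices of `Pg H` at most one is an `inr`
(two `inr` are never adjacent). If one is `inr v`, the two others are both `inl v`: not distinct.
If none is, they form a triangle of `H`.

PROOF of `pg_max`. `K = I.disjSum Iᶜ` has `|I| + |Iᶜ| = |V|` elements. It is a clique of the
complement: two distinct `inl` are not adjacent in `Pg H` by independence; `inl u` with `u ∈ I` and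
`inr v` with `v ∉ I` have `u ≠ v`; two `inr` are never adjacent in `Pg H`. A clique `K'` of the
complement has at most `|V|` elements: the map `Sum.elim id id` is injective on `K'`, because
`inl v` and `inr v` are adjacent in `Pg H`, so they are not both in `K'`.
-/

namespace PBar

theorem pg_tri {V : Type} (H : SimpleGraph V) (h : H.CliqueFree 3) : (Pg H).CliqueFree 3 := by
  classical
  intro s hs
  rw [SimpleGraph.is3Clique_iff] at hs
  obtain ⟨a, b, c, hab, hac, hbc, rfl⟩ := hs
  have key : ∀ x y : V ⊕ V, (Pg H).Adj x y → (∃ v u, x = Sum.inl v ∧ y = Sum.inl u ∧ H.Adj v u) ∨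
    (∃ v, x = Sum.inl v ∧ y = Sum.inr v) ∨ (∃ v, x = Sum.inr v ∧ y = Sum.inl v) :=
    fun x y h => h
  cases a with
  | inr v =>
    obtain ⟨w1, w2, e1, e2, -⟩ | ⟨w1, e1, e2⟩ | ⟨w1, e1, e2⟩ := key _ _ hab
    · exact absurd e1 (by simp)
    · exact absurd e1 (by simp)
    obtain ⟨w3, w4, e3, e4, -⟩ | ⟨w3, e3, e4⟩ | ⟨w3, e3, e4⟩ := key _ _ hac
    · exact absurd e3 (by simp)
    · exact absurd e3 (by simp)
    refine hbc.ne ?_
    rw [e2, e4, ← Sum.inr_injective e1, ← Sum.inr_injective e3]
  | inl v =>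
    cases b with
    | inr u =>
      obtain ⟨w1, w2, e1, e2, -⟩ | ⟨w1, e1, e2⟩ | ⟨w1, e1, e2⟩ := key _ _ hab
      · exact absurd e2 (by simp)
      · obtain ⟨w3, w4, e3, e4, -⟩ | ⟨w3, e3, e4⟩ | ⟨w3, e3, e4⟩ := key _ _ hbc
        · exact absurd e3 (by simp)
        · exact absurd e3 (by simp)
        · refine hac.ne ?_
          rw [e4, e1, ← Sum.inr_injective e2, ← Sum.inr_injective e3]
      · exact absurd e1 (by simp)
    | inl u =>
      cases c with
      | inr t =>
        obtain ⟨w1, w2, e1, e2, -⟩ | ⟨w1, e1, e2⟩ | ⟨w1, e1, e2⟩ := key _ _ hac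
        · exact absurd e2 (by simp)
        · obtain ⟨w3, w4, e3, e4, -⟩ | ⟨w3, e3, e4⟩ | ⟨w3, e3, e4⟩ := key _ _ hbc
          · exact absurd e4 (by simp)
          · refine hab.ne ?_
            rw [e1, e3, ← Sum.inr_injective e2, ← Sum.inr_injective e4]
          · exact absurd e3 (by simp)
        · exact absurd e1 (by simp)
      | inl t =>
        have key2 : ∀ x y : V, (Pg H).Adj (Sum.inl x) (Sum.inl y) → H.Adj x y := by
          intro x y hxy
          obtain ⟨w1, w2, e1, e2, h3⟩ | ⟨w1, e1, e2⟩ | ⟨w1, e1, e2⟩ := key _ _ hxy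
          · rw [Sum.inl_injective e1, Sum.inl_injective e2]
            exact h3
          · exact absurd e2 (by simp)
          · exact absurd e1 (by simp)
        classical
        refine h {v, u, t} ?_
        rw [SimpleGraph.is3Clique_iff]
        exact ⟨v, u, t, key2 _ _ hab, key2 _ _ hac, key2 _ _ hbc, rfl⟩

private theorem pg_ll {V : Type} (H : SimpleGraph V) (x y : V)
    (h : (Pg H).Adj (Sum.inl x) (Sum.inl y)) : H.Adj x y := by
  obtain ⟨w1, w2, e1, e2, h3⟩ | ⟨w1, e1, e2⟩ | ⟨w1, e1, e2⟩ := h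
  · rw [Sum.inl_injective e1, Sum.inl_injective e2]
    exact h3
  · exact absurd e2 (by simp)
  · exact absurd e1 (by simp)

private theorem pg_rr {V : Type} (H : SimpleGraph V) (x y : V)
    (h : (Pg H).Adj (Sum.inr x) (Sum.inr y)) : False := by
  obtain ⟨w1, w2, e1, e2, h3⟩ | ⟨w1, e1, e2⟩ | ⟨w1, e1, e2⟩ := h
  · exact absurd e1 (by simp)
  · exact absurd e1 (by simp)
  · exact absurd e2 (by simp)

private theorem pg_lr {V : Type} (H : SimpleGraph V) (x y : V)
    (h : (Pg H).Adj (Sum.inl x) (Sum.inr y)) : x = y := by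
  obtain ⟨w1, w2, e1, e2, h3⟩ | ⟨w1, e1, e2⟩ | ⟨w1, e1, e2⟩ := h
  · exact absurd e2 (by simp)
  · rw [Sum.inl_injective e1, Sum.inr_injective e2]
  · exact absurd e1 (by simp)

theorem pg_max {V : Type} [Fintype V] [DecidableEq V] (H : SimpleGraph V) (I : Finset V)
    (hI : ∀ u ∈ I, ∀ v ∈ I, ¬ H.Adj u v) :
    (Pg H)ᶜ.IsMaximumClique (I.disjSum Iᶜ) := by
  constructor
  · intro a ha b hb hab
    rw [Finset.mem_coe, Finset.mem_disjSum] at ha hb
    rw [SimpleGraph.compl_adj]
    refine ⟨hab, ?_⟩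
    intro hadj
    obtain ⟨u, hu, rfl⟩ | ⟨u, hu, rfl⟩ := ha
    · obtain ⟨v, hv, rfl⟩ | ⟨v, hv, rfl⟩ := hb
      · exact hI u hu v hv (pg_ll H u v hadj)
      · have e := pg_lr H u v hadj
        rw [Finset.mem_compl] at hv
        exact hv (e ▸ hu)
    · obtain ⟨v, hv, rfl⟩ | ⟨v, hv, rfl⟩ := hb
      · have e := pg_lr H v u hadj.symm
        rw [Finset.mem_compl] at hu
        exact hu (e ▸ hv)
      · exact pg_rr H u v hadj
  · intro t ht
    have h1 : (I.disjSum Iᶜ).card = Fintype.card V := by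
      rw [Finset.card_disjSum, Finset.card_add_card_compl]
    rw [h1]
    refine le_trans (Finset.card_le_card_of_injOn (t := Finset.univ) (Sum.elim id id)
      (fun _ _ => Finset.mem_coe.mpr (Finset.mem_univ _)) ?_) (le_of_eq Finset.card_univ)
    intro a ha b hb hab
    by_contra hne
    have hadj := ht ha hb hne
    rw [SimpleGraph.compl_adj] at hadj
    refine hadj.2 ?_
    cases a with
    | inl u =>
      cases b with
      | inl v =>
        exact absurd (congrArg Sum.inl hab) hne
      | inr v =>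
        have e : u = v := hab
        exact Or.inr (Or.inl ⟨u, rfl, by rw [e]⟩)
    | inr u =>
      cases b with
      | inl v =>
        have e : u = v := hab
        exact Or.inr (Or.inr ⟨u, rfl, by rw [e]⟩)
      | inr v =>
        exact absurd (congrArg Sum.inr hab) hne

end PBar
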