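import Mathlib

/-!
# CycA (S): independent sets of an odd cycle

PROOF. Let `σ i = i + 1` for `i < 2r` and `σ (2r) = 0` (that is `(i+1) % (2r+1)`), injective on
`range (2r+1)`. By the hypotheses `σ(S)` is disjoint from `S`, both are contained in
`range (2r+1)` and have the same cardinality, so `2 |S| <= 2r+1` and `|S| <= r`.
-/

namespace PBar

theorem cyc_indep (r : ℕ) (hr : 1 ≤ r) (S : Finset ℕ) (hS : ∀ i ∈ S, i < 2 * r + 1)
    (h1 : ∀ i ∈ S, i < 2 * r → i + 1 ∉ S) (h2 : 2 * r ∈ S → 0 ∉ S) : S.card ≤ r := by
  classical
  let f : ℕ → ℕ := fun i => if i = 2 * r then 0 else i + 1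
  have hf : ∀ i, f i = if i = 2 * r then 0 else i + 1 := fun i => rfl
  have hinj : Set.InjOn f S := by
    intro a ha b hb hab
    have ha' := hS a ha
    have hb' := hS b hb
    rw [hf, hf] at hab
    split_ifs at hab <;> omega
  have hd : Disjoint S (S.image f) := by
    rw [Finset.disjoint_left]
    intro a ha hb
    obtain ⟨b, hb, hba⟩ := Finset.mem_image.1 hb
    have hb' := hS b hb
    rw [hf] at hba
    split_ifs at hba with h
    · rw [h] at hb
      rw [← hba] at ha
      exact h2 hb ha
    · rw [← hba] at ha
      exact h1 b hb (by omega) ha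
  have hsub : S ∪ S.image f ⊆ Finset.range (2 * r + 1) := by
    intro a ha
    rw [Finset.mem_range]
    rcases Finset.mem_union.1 ha with h | h
    · exact hS a h
    · obtain ⟨b, hb, hba⟩ := Finset.mem_image.1 h
      have hb' := hS b hb
      rw [hf] at hba
      split_ifs at hba <;> omega
  have hc := Finset.card_le_card hsub
  rw [Finset.card_union_of_disjoint hd, Finset.card_image_of_injOn hinj, Finset.card_range] at hc
  omega

end PBar
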