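import Mathlib

/-!
# OddC (S-M): a graph which is not 2-colorable contains an odd cycle

PROOF. By `SimpleGraph.two_colorable_iff_forall_loop_even` there is a closed walk of odd length.
Take one, `p : H.Walk u u`, of least odd length `L = 2r+1` (Nat.find over all `u`). `L = 1` would
be a loop, so `r >= 1`. Let `f i = p.getVert i`. Consecutive vertices are adjacent
(`SimpleGraph.Walk.adj_getVert_succ`), and `f (2r+1) = u = f 0`, which gives the last claim.
Injectivity: if `f i = f j` with `i < j < L`, the closed walks `(p.drop i)` taken up to `j` (length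
`j-i`, closed at `f i`) and `p.take i` followed by `p.drop j` (length `L-(j-i)`, closed at `u`) have
lengths summing to `L`, hence one of them is odd and shorter than `L`: contradiction.
(One may also do this with functions: a closed walk of length `L` is a function `g : ℕ → V` with
`g 0 = g L`.)
-/

namespace PBar

/-- closed walks as functions -/
private def CW {V : Type} (H : SimpleGraph V) (L : ℕ) : Prop :=
  ∃ g : ℕ → V, g L = g 0 ∧ ∀ i, i < L → H.Adj (g i) (g (i + 1))

theorem odd_cycle {V : Type} (H : SimpleGraph V) (h : ¬ H.Colorable 2) :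
    ∃ (r : ℕ) (f : ℕ → V), 1 ≤ r ∧
      (∀ i j, i < 2 * r + 1 → j < 2 * r + 1 → f i = f j → i = j) ∧
      (∀ i, i < 2 * r → H.Adj (f i) (f (i + 1))) ∧ H.Adj (f (2 * r)) (f 0) := by
  classical
  have hex : ∃ L, Odd L ∧ CW H L := by
    rw [SimpleGraph.two_colorable_iff_forall_loop_even] at h
    push Not at h
    obtain ⟨u, p, hp⟩ := h
    refine ⟨p.length, Nat.not_even_iff_odd.1 hp, p.getVert, ?_, fun i hi => ?_⟩
    · rw [SimpleGraph.Walk.getVert_length, SimpleGraph.Walk.getVert_zero]
    · exact p.adj_getVert_succ hi
  obtain ⟨L, hL⟩ : ∃ L, L = Nat.find hex := ⟨_, rfl⟩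
  obtain ⟨hodd, f, hf0, hf⟩ := Nat.find_spec hex
  have hmin : ∀ M, M < L → Odd M → ¬ CW H M := by
    intro M hM hMo hc
    rw [hL] at hM
    exact Nat.find_min hex hM ⟨hMo, hc⟩
  rw [← hL] at hodd hf0 hf
  obtain ⟨r, hr⟩ := hodd
  have hinj : ∀ i j, i < j → j < L → f i ≠ f j := by
    intro i j hij hj he
    have c1 : CW H (j - i) := by
      refine ⟨fun k => f (i + k), ?_, fun k hk => ?_⟩
      · show f (i + (j - i)) = f (i + 0)
        rw [Nat.add_sub_cancel' hij.le, add_zero, he]
      · exact hf (i + k) (by omega)
    have c2 : CW H (L - (j - i)) := by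
      refine ⟨fun k => if k ≤ i then f k else f (k + (j - i)), ?_, fun k hk => ?_⟩
      · show (if L - (j - i) ≤ i then f (L - (j - i)) else f (L - (j - i) + (j - i))) =
          (if 0 ≤ i then f 0 else f (0 + (j - i)))
        rw [if_neg (by omega), if_pos (Nat.zero_le _), Nat.sub_add_cancel (by omega), hf0]
      · show H.Adj (if k ≤ i then f k else f (k + (j - i)))
          (if k + 1 ≤ i then f (k + 1) else f (k + 1 + (j - i)))
        rcases Nat.lt_trichotomy k i with h1 | h1 | h1
        · rw [if_pos h1.le, if_pos (show k + 1 ≤ i from h1)]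
          exact hf k (by omega)
        · rw [h1, if_pos le_rfl, if_neg (by omega)]
          have h2 : i + 1 + (j - i) = j + 1 := by omega
          rw [h2, he]
          exact hf j hj
        · rw [if_neg (by omega), if_neg (by omega)]
          have h2 : k + 1 + (j - i) = k + (j - i) + 1 := by omega
          rw [h2]
          exact hf _ (by omega)
    rcases Nat.even_or_odd (j - i) with h1 | h1
    · refine hmin (L - (j - i)) (by omega) ?_ c2
      obtain ⟨a, ha⟩ := h1
      exact ⟨r - a, by omega⟩
    · exact hmin (j - i) (by omega) h1 c1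
  have hr1 : 1 ≤ r := by
    by_contra hcon
    have h0 : r = 0 := by omega
    have h1 := hf 0 (by omega)
    have h2 : L = 1 := by omega
    rw [h2] at hf0
    rw [zero_add, hf0] at h1
    exact H.loopless.irrefl _ h1
  refine ⟨r, f, hr1, fun i j hi hj he => ?_, fun i hi => hf i (by omega), ?_⟩
  · rcases Nat.lt_trichotomy i j with h1 | h1 | h1
    · exact absurd he (hinj i j h1 (by omega))
    · exact h1
    · exact absurd he.symm (hinj j i h1 (by omega))
  · have h1 := hf (2 * r) (by omega)
    rw [← hr, hf0] at h1
    exact h1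

end PBar
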