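import Pool.Agent.Work.MP_a5c73b_lc.PB.Defs
import Pool.Agent.Work.MP_a5c73b_lc.PB.OddC
import Pool.Agent.Work.MP_a5c73b_lc.PB.CycA

/-!
# PerfC (M): a perfect graph whose complement is triangle-free is co-bipartite

PROOF. Suppose `Gᶜ.induce B` is not 2-colorable. `odd_cycle` gives `r >= 1` and
`f : ℕ → B`, injective below `2r+1`, consecutive values (cyclically) adjacent in `Gᶜ`. Let
`A = {f i : i < 2r+1}` as a subset of `V` (contained in `B`), and `ω = (G.induce A).cliqueNum`.
* `ω <= r`: let `K` be a clique of `G.induce A` with `ω` elements (`A` is finite; use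
  `SimpleGraph.exists_isNClique_cliqueNum` or `maximumClique_exists`); `S = {i < 2r+1 : f i ∈ K}`
  has `ω` elements (`f` is a bijection from `range (2r+1)` to `A`), and contains no two
  consecutive indices, because `f i`, `f (i+1)` are adjacent in `Gᶜ`, so they are not adjacent
  in `G`, but they are distinct elements of a clique `K` otherwise. `cyc_indep` gives `ω <= r`.
* `Perf` gives `chromaticNumber (G.induce A) = ω`, so `G.induce A` has a coloring with `ω` colors
  (`SimpleGraph.chromaticNumber_le_iff_colorable`). Every color class has at most 2 elements: three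
  distinct elements with the same color are pairwise not adjacent in `G`, so they form a
  triangle of `Gᶜ`, contradicting `h3`. Hence `2r+1 = |A| <= 2 ω <= 2r`: contradiction.
  (`Finset.card_le_mul_card_image` or `Finset.card_eq_sum_card_fiberwise`.)
-/

namespace PBar

theorem perf_col {V : Type} (G : SimpleGraph V) (B : Set V) (hP : Perf G B)
    (h3 : Gᶜ.CliqueFree 3) : (Gᶜ.induce B).Colorable 2 := by
  classical
  by_contra hc
  obtain ⟨r, f, hr, hinj, hadj, hlast⟩ := odd_cycle _ hc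
  obtain ⟨g, hg⟩ : ∃ g : ℕ → V, ∀ i, g i = (f i : V) := ⟨fun i => (f i : V), fun _ => rfl⟩
  obtain ⟨A, hAdef⟩ : ∃ A : Set V, ∀ a, a ∈ A ↔ ∃ i, i < 2 * r + 1 ∧ g i = a :=
    ⟨{a | ∃ i, i < 2 * r + 1 ∧ g i = a}, fun _ => Iff.rfl⟩
  have hAB : A ⊆ B := by
    intro a ha
    obtain ⟨i, _, rfl⟩ := (hAdef a).1 ha
    rw [hg]
    exact (f i).2
  have hgA : ∀ i, i < 2 * r + 1 → g i ∈ A := fun i hi => (hAdef _).2 ⟨i, hi, rfl⟩
  have hginj : ∀ i j, i < 2 * r + 1 → j < 2 * r + 1 → g i = g j → i = j := by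
    intro i j hi hj h
    rw [hg, hg] at h
    exact hinj i j hi hj (Subtype.ext h)
  have hgadj : ∀ i, i < 2 * r → Gᶜ.Adj (g i) (g (i + 1)) := by
    intro i hi
    rw [hg, hg]
    exact hadj i hi
  have hglast : Gᶜ.Adj (g (2 * r)) (g 0) := by
    rw [hg, hg]
    exact hlast
  have hA := hP A hAB
  obtain ⟨K, hK⟩ := (G.induce A).exists_isNClique_cliqueNum
  -- the clique number is at most `r`
  have hnot : ∀ i j, Gᶜ.Adj (g i) (g j) → (∃ h : g i ∈ A, (⟨g i, h⟩ : A) ∈ K) →
      (∃ h : g j ∈ A, (⟨g j, h⟩ : A) ∈ K) → False := by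
    rintro i j hij ⟨hi, hiK⟩ ⟨hj, hjK⟩
    have hne : (⟨g i, hi⟩ : A) ≠ ⟨g j, hj⟩ := fun e => hij.ne (congrArg Subtype.val e)
    have h1 := hK.isClique (Finset.mem_coe.2 hiK) (Finset.mem_coe.2 hjK) hne
    rw [SimpleGraph.compl_adj] at hij
    exact hij.2 h1
  have hKr : K.card ≤ r := by
    have h1 : ((Finset.range (2 * r + 1)).filter
        (fun i => ∃ h : g i ∈ A, (⟨g i, h⟩ : A) ∈ K)).card ≤ r := by
      refine cyc_indep r hr _ ?_ ?_ ?_
      · intro i hi
        exact Finset.mem_range.1 (Finset.mem_filter.1 hi).1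
      · intro i hi hir hi'
        exact hnot i (i + 1) (hgadj i hir) (Finset.mem_filter.1 hi).2 (Finset.mem_filter.1 hi').2
      · intro hi hi'
        exact hnot (2 * r) 0 hglast (Finset.mem_filter.1 hi).2 (Finset.mem_filter.1 hi').2
    refine le_trans ?_ h1
    rw [← Finset.card_image_of_injective K Subtype.val_injective]
    refine le_trans (Finset.card_le_card ?_) (Finset.card_image_le (f := g))
    intro a ha
    obtain ⟨⟨a', ha'⟩, haK, rfl⟩ := Finset.mem_image.1 ha
    obtain ⟨i, hi, rfl⟩ := (hAdef a').1 ha'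
    exact Finset.mem_image.2 ⟨i, Finset.mem_filter.2 ⟨Finset.mem_range.2 hi, ha', haK⟩, rfl⟩
  have hω : (G.induce A).cliqueNum ≤ r := by
    rw [← hK.card_eq]
    exact hKr
  -- coloring
  obtain ⟨C⟩ := SimpleGraph.chromaticNumber_le_iff_colorable.1 hA.le
  obtain ⟨c, hcdef⟩ : ∃ c : Fin (2 * r + 1) → Fin (G.induce A).cliqueNum,
      ∀ i, c i = C ⟨g i.val, hgA i.val i.2⟩ := ⟨fun i => C ⟨g i.val, hgA i.val i.2⟩, fun _ => rfl⟩
  have hdist : ∀ i j : Fin (2 * r + 1), i ≠ j → c i = c j → Gᶜ.Adj (g i.val) (g j.val) := by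
    intro i j hij hcc
    rw [SimpleGraph.compl_adj]
    refine ⟨fun e => hij (Fin.ext (hginj _ _ i.2 j.2 e)), fun hG => ?_⟩
    rw [hcdef, hcdef] at hcc
    have : (G.induce A).Adj ⟨g i.val, hgA i.val i.2⟩ ⟨g j.val, hgA j.val j.2⟩ := hG
    exact C.valid this hcc
  have hfib := Finset.card_le_mul_card_image (f := c) (Finset.univ : Finset (Fin (2 * r + 1))) 2 (by
    intro a _
    by_contra hlt
    rw [not_le, Finset.two_lt_card] at hlt
    obtain ⟨i, hi, j, hj, k, hk, hij, hik, hjk⟩ := hlt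
    have ei := (Finset.mem_filter.1 hi).2
    have ej := (Finset.mem_filter.1 hj).2
    have ek := (Finset.mem_filter.1 hk).2
    have a1 := hdist i j hij (ei.trans ej.symm)
    have a2 := hdist i k hik (ei.trans ek.symm)
    have a3 := hdist j k hjk (ej.trans ek.symm)
    exact h3 {g i.val, g j.val, g k.val}
      (SimpleGraph.is3Clique_triple_iff.2 ⟨a1, a2, a3⟩))
  rw [Finset.card_univ, Fintype.card_fin] at hfib
  have h5 : (Finset.univ.image c).card ≤ (G.induce A).cliqueNum := by
    refine le_trans (Finset.card_le_univ _) ?_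
    rw [Fintype.card_fin]
  omega

end PBar
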