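import Pool.Agent.Work.MP_a5c73b_lc.PB.Defs
import Pool.Agent.Work.MP_a5c73b_lc.PB.PerfC
import Pool.Agent.Work.MP_a5c73b_lc.PB.Pend
import Pool.Agent.Work.MP_a5c73b_lc.PB.HTri
import Pool.Agent.Work.MP_a5c73b_lc.PB.Lay

/-!
# GoodL (S-M): both kinds of pieces have a properly 2-colored layer

PROOF. Let `G = (Pg (Hg m w))ᶜ`, so `Gᶜ = Pg (Hg m w)` (`compl_compl`).
* If `Perf G B`: `perf_col`, with `pg_tri`, `hg_tri`, gives a 2-coloring `C` of
  `(Pg (Hg m w)).induce B`; take `j = 0` and `c v` = the color of `inl v` (as a Bool) if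
  `inl v ∈ B`, and `false` otherwise.
* If `¬ OddPack G B w`: apply `layer` to `g (inl v) = g (inr v) = v.2.val % w` (as an element of
  `Fin w`), and define `c` in the same way from the 2-coloring of the layer.
In both cases adjacent `u, v` of `Hg m w` in the layer give adjacent `inl u, inl v`.
-/

namespace PBar

private theorem col {V : Type} (H : SimpleGraph V) (A : Set (V ⊕ V))
    (h : ((Pg H)ᶜᶜ.induce A).Colorable 2) :
    ∃ c : V → Bool, ∀ u v : V, Sum.inl u ∈ A → Sum.inl v ∈ A → H.Adj u v → c u ≠ c v := by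
  classical
  rw [compl_compl] at h
  obtain ⟨C⟩ := h
  refine ⟨fun u => if hu : Sum.inl u ∈ A then decide (C ⟨Sum.inl u, hu⟩ = 0) else false,
    fun u v hu hv ha => ?_⟩
  have hadj : ((Pg H).induce A).Adj ⟨Sum.inl u, hu⟩ ⟨Sum.inl v, hv⟩ :=
    Or.inl ⟨u, v, rfl, rfl, ha⟩
  have hne := C.valid hadj
  simp only [dif_pos hu, dif_pos hv]
  intro e
  apply hne
  have e2 := decide_eq_decide.mp e
  by_cases h0 : C ⟨Sum.inl u, hu⟩ = 0
  · rw [h0, e2.mp h0]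
  · have h1 : C ⟨Sum.inl v, hv⟩ ≠ 0 := fun h => h0 (e2.mpr h)
    have := Fin.eq_one_of_ne_zero _ h0
    have h3 := Fin.eq_one_of_ne_zero _ h1
    rw [this, h3]

theorem good_layer (m w : ℕ) (hm : 1 ≤ m) (hw : 1 ≤ w) (B : Set (Vt m w ⊕ Vt m w))
    (h : Perf (Pg (Hg m w))ᶜ B ∨ ¬ OddPack (Pg (Hg m w))ᶜ B w) :
    ∃ (j : ℕ) (c : Vt m w → Bool), j < w ∧ ∀ u v : Vt m w, Sum.inl u ∈ B → Sum.inl v ∈ B →
      u.2.val % w = j → v.2.val % w = j → (Hg m w).Adj u v → c u ≠ c v := by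
  rcases h with hP | hO
  · obtain ⟨c, hc⟩ := col (Hg m w) B (perf_col _ B hP (by
      rw [compl_compl]
      exact pg_tri _ (hg_tri m w hm)))
    exact ⟨0, c, hw, fun u v hu hv _ _ ha => hc u v hu hv ha⟩
  · have hlt : ∀ k : ℕ, k % w < w := fun k => Nat.mod_lt _ hw
    obtain ⟨j, hj⟩ := layer (Pg (Hg m w))ᶜ B w
      (Sum.elim (fun v : Vt m w => ⟨v.2.val % w, hlt _⟩) (fun v : Vt m w => ⟨v.2.val % w, hlt _⟩)) hO
    obtain ⟨c, hc⟩ := col (Hg m w) _ hj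
    refine ⟨j.val, c, j.2, fun u v hu hv h1 h2 ha => hc u v ⟨hu, ?_⟩ ⟨hv, ?_⟩ ha⟩
    · exact Fin.ext h1
    · exact Fin.ext h2

end PBar
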