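import Pool.Agent.Work.MP_a5c73b_lc.PB.Defs

/-!
# GridE (M): an induced `t × t` grid in `2t-1` consecutive columns

PROOF. Let `p = (i, j) ∈ Fin t × Fin t`. If `i + j` is even let `a p = (i - j) / 2` (an exact
division in ℤ), if `i + j` is odd let `a p = -((i - j + 1) / 2)` (exact). Then
`-t <= a p <= t` (indeed `|a p| <= t/2`), so `-3m <= a p <= 3m - 1` (`t <= m`), and there is
`b p : Fin (6mw)` with
`lv (b p) = w * a p` (value `w * (3m + a p)`). Put `f p = (c₀ + (i + j), b p)`.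
ADJACENCY. Let `q = (i', j')`, `X = i + j`, `X' = i' + j'`. Since `|X - X'| <= 2t - 2 < 4m`, the
columns are consecutive in `ZMod (4m+1)` iff `X' = X + 1` or `X = X' + 1`. In that case one of
`X, X'` is even and the other is odd, say `X` even and `X'` odd, and
`a p + a q = (i - j)/2 - (i' - j' + 1)/2 = ((i - j) - (i' - j') - 1)/2`, and
`-w <= w (a p + a q) < w` iff `a p + a q ∈ {-1, 0}` iff `(i - j) - (i' - j') ∈ {-1, 1}`; together
with `(i + j) - (i' + j') ∈ {-1, 1}` this says that `p, q` differ by one in exactly one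
coordinate, which is adjacency in the grid (`SimpleGraph.boxProd_adj`,
`SimpleGraph.pathGraph_adj`). Injectivity: `X` (as `0 <= X < 4m+1`) and `a p` determine `i + j` and
`i - j`. The column of `f p` is `c₀ + x` with `x = i + j <= 2t - 2`. (Recommended: a lemma over
integers with all quantities, closed by `omega` after splitting on parities, and `nlinarith` or
`mul` monotonicity for the factor `w >= 1`.)
-/

namespace PBar

private def av (i j : ℕ) : ℤ :=
  if (i + j) % 2 = 0 then ((i : ℤ) - j) / 2 else -(((i : ℤ) - j + 1) / 2)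

private theorem av_le {i j t : ℕ} (hi : i < t) (hj : j < t) : -(t : ℤ) ≤ av i j ∧ av i j ≤ t := by
  unfold av
  split_ifs <;> constructor <;> omega

private theorem av_inj {i j i' j' : ℕ} (hX : i + j = i' + j') (ha : av i j = av i' j') :
    i = i' ∧ j = j' := by
  unfold av at ha
  rw [hX] at ha
  split_ifs at ha <;> omega

private theorem av_adj {i j i' j' : ℕ} :
    ((i' + j' = i + j + 1 ∨ i + j = i' + j' + 1) ∧ -1 ≤ av i j + av i' j' ∧
      av i j + av i' j' < 1) ↔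
    ((i + 1 = i' ∨ i' + 1 = i) ∧ j = j' ∨ (j + 1 = j' ∨ j' + 1 = j) ∧ i = i') := by
  unfold av
  split_ifs <;> constructor <;> intro h <;> omega

private theorem w_le {w : ℕ} (hw : 1 ≤ w) (a : ℤ) :
    (-(w : ℤ) ≤ w * a ∧ (w : ℤ) * a < w) ↔ (-1 ≤ a ∧ a < 1) := by
  have hw' : (0 : ℤ) < w := by exact_mod_cast hw
  constructor
  · rintro ⟨h1, h2⟩
    constructor
    · by_contra hc
      have : a ≤ -2 := by omega
      nlinarith
    · by_contra hc
      have : 1 ≤ a := by omega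
      nlinarith
  · rintro ⟨h1, h2⟩
    constructor <;> nlinarith

private theorem bv_lt {m t w i j : ℕ} (htm : t ≤ m) (hw : 1 ≤ w) (hi : i < t) (hj : j < t) :
    ((w : ℤ) * (3 * m + av i j)).toNat < 6 * m * w := by
  have h := av_le hi hj
  have hm : (t : ℤ) ≤ m := by exact_mod_cast htm
  have hw' : (0 : ℤ) < w := by exact_mod_cast hw
  have h1 : 0 ≤ 3 * (m : ℤ) + av i j := by linarith [h.1, h.2]
  have hm1 : (1 : ℤ) ≤ m := by
    have : 1 ≤ m := by omega
    exact_mod_cast this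
  have h2 : 3 * (m : ℤ) + av i j < 6 * m := by linarith [h.1, h.2]
  have h3 : 0 ≤ (w : ℤ) * (3 * m + av i j) := mul_nonneg hw'.le h1
  have h4 : (((w : ℤ) * (3 * m + av i j)).toNat : ℤ) < ((6 * m * w : ℕ) : ℤ) := by
    rw [Int.toNat_of_nonneg h3]
    push_cast
    nlinarith
  exact_mod_cast h4

private theorem lv_bv {m t w i j : ℕ} (htm : t ≤ m) (hw : 1 ≤ w) (hi : i < t) (hj : j < t) :
    lv m w ⟨((w : ℤ) * (3 * m + av i j)).toNat, bv_lt htm hw hi hj⟩ = w * av i j := by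
  have h := av_le hi hj
  have hm : (t : ℤ) ≤ m := by exact_mod_cast htm
  have hw' : (0 : ℤ) < w := by exact_mod_cast hw
  have h1 : 0 ≤ 3 * (m : ℤ) + av i j := by linarith [h.1, h.2]
  have h3 : 0 ≤ (w : ℤ) * (3 * m + av i j) := mul_nonneg hw'.le h1
  unfold lv
  simp only
  rw [Int.toNat_of_nonneg h3]
  ring

private theorem zm {m a b : ℕ} (ha : a < 4 * m + 1) (hb : b < 4 * m + 1) :
    ((a : ℕ) : ZMod (4 * m + 1)) = (b : ℕ) ↔ a = b := by
  rw [ZMod.natCast_eq_natCast_iff', Nat.mod_eq_of_lt ha, Nat.mod_eq_of_lt hb]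

private theorem zm1 {m a b : ℕ} (c₀ : ZMod (4 * m + 1)) (ha : a < 4 * m) (hb : b < 4 * m) :
    c₀ + ((b : ℕ) : ZMod (4 * m + 1)) = c₀ + (a : ℕ) + 1 ↔ b = a + 1 := by
  rw [add_assoc, add_right_inj]
  have e : ((a : ℕ) : ZMod (4 * m + 1)) + 1 = ((a + 1 : ℕ) : ZMod (4 * m + 1)) := by push_cast; rfl
  rw [e]
  exact zm (by omega) (by omega)

theorem grid_emb (m t w : ℕ) (ht : 1 ≤ t) (htm : t ≤ m) (hw : 1 ≤ w) (c₀ : ZMod (4 * m + 1)) :
    ∃ f : (SimpleGraph.pathGraph t □ SimpleGraph.pathGraph t) ↪g Hg m w,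
      ∀ p, ∃ x : ℕ, x ≤ 2 * t - 2 ∧ (f p).1 = c₀ + (x : ZMod (4 * m + 1)) := by
  have hw' : (w : ℤ) ≠ 0 := by
    have : (0 : ℤ) < w := by exact_mod_cast hw
    exact this.ne'
  let f0 : Fin t × Fin t → Vt m w := fun p =>
    (c₀ + (((p.1.val + p.2.val : ℕ)) : ZMod (4 * m + 1)),
      ⟨((w : ℤ) * (3 * m + av p.1.val p.2.val)).toNat, bv_lt htm hw p.1.isLt p.2.isLt⟩)
  have hlv : ∀ p, lv m w (f0 p).2 = w * av p.1.val p.2.val := fun p =>
    lv_bv htm hw p.1.isLt p.2.isLt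
  have hinj : Function.Injective f0 := by
    intro p q h
    have h1 : (f0 p).1 = (f0 q).1 := by rw [h]
    have h2 : lv m w (f0 p).2 = lv m w (f0 q).2 := by rw [h]
    rw [hlv, hlv] at h2
    have h3 := mul_left_cancel₀ hw' h2
    have h4 : (c₀ + (((p.1.val + p.2.val : ℕ)) : ZMod (4 * m + 1))) =
      c₀ + (((q.1.val + q.2.val : ℕ)) : ZMod (4 * m + 1)) := h1
    rw [add_right_inj] at h4
    have h5 := (zm (by have := p.1.isLt; have := p.2.isLt; omega)
      (by have := q.1.isLt; have := q.2.isLt; omega)).mp h4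
    obtain ⟨h6, h7⟩ := av_inj h5 h3
    exact Prod.ext (Fin.ext h6) (Fin.ext h7)
  have hadj : ∀ p q, (Hg m w).Adj (f0 p) (f0 q) ↔
      (SimpleGraph.pathGraph t □ SimpleGraph.pathGraph t).Adj p q := by
    intro p q
    have hp1 := p.1.isLt
    have hp2 := p.2.isLt
    have hq1 := q.1.isLt
    have hq2 := q.2.isLt
    have e1 : ((f0 q).1 = (f0 p).1 + 1) ↔ q.1.val + q.2.val = p.1.val + p.2.val + 1 :=
      zm1 c₀ (by omega) (by omega)
    have e2 : ((f0 p).1 = (f0 q).1 + 1) ↔ p.1.val + p.2.val = q.1.val + q.2.val + 1 :=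
      zm1 c₀ (by omega) (by omega)
    have e3 : (-(w : ℤ) ≤ lv m w (f0 p).2 + lv m w (f0 q).2 ∧
        lv m w (f0 p).2 + lv m w (f0 q).2 < w) ↔
        (-1 ≤ av p.1.val p.2.val + av q.1.val q.2.val ∧
          av p.1.val p.2.val + av q.1.val q.2.val < 1) := by
      rw [hlv, hlv, ← mul_add]
      exact w_le hw _
    rw [SimpleGraph.boxProd_adj, SimpleGraph.pathGraph_adj, SimpleGraph.pathGraph_adj,
      Fin.ext_iff, Fin.ext_iff]
    have e4 := @av_adj p.1.val p.2.val q.1.val q.2.val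
    rw [← e4, ← e3, ← e1, ← e2]
    constructor
    · rintro ⟨-, h2, h3⟩
      exact ⟨h2, h3⟩
    · rintro ⟨h2, h3⟩
      refine ⟨?_, h2, h3⟩
      intro h
      have hpq := hinj h
      rw [e1, e2, hpq] at h2
      omega
  refine ⟨⟨⟨f0, hinj⟩, fun {p q} => hadj p q⟩, fun p => ⟨p.1.val + p.2.val, ?_, rfl⟩⟩
  have hp1 := p.1.isLt
  have hp2 := p.2.isLt
  omega

end PBar
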