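import Pool.Agent.Work.MP_a5c73b_lc.PB.Defs

/-!
# PickC (S-M): far apart vertices, one in each fourth pair of columns

PROOF. Choose `t i` with column `4i` or `4i + 1` (in `ZMod (4m+1)`), `i < m`. The column of an
element of the closed neighbourhood of `t i` is `4i + s` with `s ∈ {-1, 0, 1, 2}`. A common element
for `i` and `i'` gives `4i + s = 4i' + s'` in `ZMod (4m+1)`, so `4m+1` divides the integer
`4(i - i') + (s - s')`, of absolute value at most `4(m-1) + 3 < 4m+1`; so it is zero, and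
`4 (i - i') = s' - s` with `|s' - s| <= 3` gives `i = i'`.
-/

namespace PBar

theorem pick_col (m w : ℕ) (T : Vt m w → Prop)
    (h : ∀ κ : ZMod (4 * m + 1), ∃ v : Vt m w, T v ∧ (v.1 = κ ∨ v.1 = κ + 1)) :
    ∃ t : Fin m → Vt m w, (∀ i, T (t i)) ∧ ∀ i i', i ≠ i' → ∀ u,
      (u = t i ∨ (Hg m w).Adj (t i) u) → (u = t i' ∨ (Hg m w).Adj (t i') u) → False := by
  choose t ht using fun i : Fin m => h (((4 * (i : ℕ) : ℤ)) : ZMod (4 * m + 1))
  refine ⟨t, fun i => (ht i).1, ?_⟩
  have key : ∀ (i : Fin m) (u : Vt m w), (u = t i ∨ (Hg m w).Adj (t i) u) →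
      ∃ s : ℤ, -1 ≤ s ∧ s ≤ 2 ∧ u.1 = ((4 * (i : ℕ) + s : ℤ) : ZMod (4 * m + 1)) := by
    intro i u hu
    have h1 := (ht i).2
    rcases hu with rfl | hu
    · rcases h1 with h1 | h1
      · exact ⟨0, by norm_num, by norm_num, by rw [h1]; push_cast; ring⟩
      · exact ⟨1, by norm_num, by norm_num, by rw [h1]; push_cast; ring⟩
    · have h2 := hu.2.1
      rcases h2 with h2 | h2
      · rcases h1 with h1 | h1
        · exact ⟨1, by norm_num, by norm_num, by rw [h2, h1]; push_cast; ring⟩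
        · exact ⟨2, by norm_num, by norm_num, by rw [h2, h1]; push_cast; ring⟩
      · have h3 : u.1 = (t i).1 - 1 := by rw [h2]; ring
        rcases h1 with h1 | h1
        · exact ⟨-1, by norm_num, by norm_num, by rw [h3, h1]; push_cast; ring⟩
        · exact ⟨0, by norm_num, by norm_num, by rw [h3, h1]; push_cast; ring⟩
  intro i i' hne u hu hu'
  obtain ⟨s, hs1, hs2, hs⟩ := key i u hu
  obtain ⟨s', hs1', hs2', hs'⟩ := key i' u hu'
  rw [hs] at hs'
  rw [ZMod.intCast_eq_intCast_iff] at hs'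
  obtain ⟨k, hk⟩ := hs'.dvd
  push_cast at hk
  have hi : ((i : ℕ) : ℤ) < m := by exact_mod_cast i.2
  have hi' : ((i' : ℕ) : ℤ) < m := by exact_mod_cast i'.2
  have hi0 : (0 : ℤ) ≤ ((i : ℕ) : ℤ) := by positivity
  have hi0' : (0 : ℤ) ≤ ((i' : ℕ) : ℤ) := by positivity
  have hm0 : (0 : ℤ) ≤ (m : ℤ) := by positivity
  have hk0 : k = 0 := by
    rcases lt_trichotomy k 0 with hlt | heq | hgt
    · exfalso
      have : (4 * (m : ℤ) + 1) * k ≤ (4 * (m : ℤ) + 1) * (-1) :=
        mul_le_mul_of_nonneg_left (by omega) (by omega)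
      omega
    · exact heq
    · exfalso
      have : (4 * (m : ℤ) + 1) * 1 ≤ (4 * (m : ℤ) + 1) * k :=
        mul_le_mul_of_nonneg_left (by omega) (by omega)
      omega
  rw [hk0, mul_zero] at hk
  apply hne
  apply Fin.ext
  omega

end PBar
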