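import Pool.Agent.Work.MP_a5c73b_lc.PB.Defs

/-!
# PickG (S-M): far apart vertices, one in each window of columns

PROOF. Apply `h` to `c₀ = (2t+1) e`, `e < m`: `T (t e)` and the column of `t e` is
`(2t+1) e + x`, `0 <= x <= 2t - 2`. The column of an element of the closed neighbourhood of
`t e` is `(2t+1) e + y` with `-1 <= y <= 2t - 1`. A common element for `e` and `e'` gives
`(2t+1) e + y = (2t+1) e' + y'` in `ZMod (4 (t m) + 1)`, so `4tm+1` divides the integer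
`(2t+1)(e - e') + (y - y')`, of absolute value at most `(2t+1)(m-1) + 2t < 4tm + 1`
(as `2t+1 <= 3t <= 4t`), so it is zero; as `|y - y'| <= 2t < 2t+1`, `e = e'`.
-/

namespace PBar

private theorem nb (m t w : ℕ) (c₀ : ZMod (4 * (t * m) + 1)) (v u : Vt (t * m) w)
    (hv : ∃ x : ℕ, x ≤ 2 * t - 2 ∧ v.1 = c₀ + (x : ZMod (4 * (t * m) + 1)))
    (hu : u = v ∨ (Hg (t * m) w).Adj v u) :
    ∃ y : ℤ, -1 ≤ y ∧ y ≤ 2 * (t : ℤ) - 1 + (if t = 0 then 2 else 0) ∧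
      u.1 = c₀ + (y : ZMod (4 * (t * m) + 1)) := by
  obtain ⟨x, hx, hvx⟩ := hv
  have hx2 : (x : ℤ) ≤ 2 * (t : ℤ) - 2 + (if t = 0 then 2 else 0) := by
    by_cases ht : t = 0
    · subst ht
      simp only [if_true]
      have : x = 0 := by omega
      subst this
      norm_num
    · rw [if_neg ht]
      omega
  rcases hu with rfl | hadj
  · exact ⟨x, by omega, by omega, by rw [hvx]; push_cast; rfl⟩
  · rcases hadj.2.1 with h | h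
    · refine ⟨(x : ℤ) + 1, by omega, by omega, ?_⟩
      rw [h, hvx]
      push_cast
      ring
    · refine ⟨(x : ℤ) - 1, by omega, by omega, ?_⟩
      have h2 : u.1 = v.1 - 1 := by rw [h]; ring
      rw [h2, hvx]
      push_cast
      ring

theorem pick_grid (m t w : ℕ) (ht : 1 ≤ t) (T : Vt (t * m) w → Prop)
    (h : ∀ c₀ : ZMod (4 * (t * m) + 1), ∃ v : Vt (t * m) w, T v ∧
      ∃ x : ℕ, x ≤ 2 * t - 2 ∧ v.1 = c₀ + (x : ZMod (4 * (t * m) + 1))) :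
    ∃ f : Fin m → Vt (t * m) w, (∀ i, T (f i)) ∧ ∀ i i', i ≠ i' → ∀ u,
      (u = f i ∨ (Hg (t * m) w).Adj (f i) u) → (u = f i' ∨ (Hg (t * m) w).Adj (f i') u) →
        False := by
  choose g hg1 hg2 using h
  refine ⟨fun e => g (((2 * t + 1) * (e : ℕ) : ℕ) : ZMod (4 * (t * m) + 1)), fun i => hg1 _, ?_⟩
  intro i i' hne u hu hu'
  obtain ⟨y, hy1, hy2, hy3⟩ := nb m t w _ _ u (hg2 _) hu
  obtain ⟨y', hy1', hy2', hy3'⟩ := nb m t w _ _ u (hg2 _) hu'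
  rw [if_neg (by omega : ¬ t = 0)] at hy2 hy2'
  have hz : (((2 * (t : ℤ) + 1) * ((i : ℕ) : ℤ) + y - ((2 * (t : ℤ) + 1) * ((i' : ℕ) : ℤ) + y') : ℤ) :
      ZMod (4 * (t * m) + 1)) = 0 := by
    have h := hy3.symm.trans hy3'
    push_cast at h ⊢
    rw [h]
    ring
  rw [ZMod.intCast_zmod_eq_zero_iff_dvd] at hz
  have hi : ((i : ℕ) : ℤ) < m := by exact_mod_cast i.2
  have hi' : ((i' : ℕ) : ℤ) < m := by exact_mod_cast i'.2
  have hi0 : (0 : ℤ) ≤ ((i : ℕ) : ℤ) := Int.natCast_nonneg _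
  have hi0' : (0 : ℤ) ≤ ((i' : ℕ) : ℤ) := Int.natCast_nonneg _
  have hne2 : ((i : ℕ) : ℤ) ≠ ((i' : ℕ) : ℤ) := fun e => hne (Fin.ext (by exact_mod_cast e))
  have ht' : (1 : ℤ) ≤ t := by exact_mod_cast ht
  have hm1 : (1 : ℤ) ≤ m := by omega
  have hb : |(2 * (t : ℤ) + 1) * ((i : ℕ) : ℤ) + y - ((2 * (t : ℤ) + 1) * ((i' : ℕ) : ℤ) + y')| <
      ((4 * (t * m) + 1 : ℕ) : ℤ) := by
    push_cast
    have hd1 : ((i : ℕ) : ℤ) - ((i' : ℕ) : ℤ) ≤ m - 1 := by omega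
    have hd2 : -((m : ℤ) - 1) ≤ ((i : ℕ) : ℤ) - ((i' : ℕ) : ℤ) := by omega
    have k1 : (2 * (t : ℤ) + 1) * (((i : ℕ) : ℤ) - ((i' : ℕ) : ℤ)) ≤ (2 * (t : ℤ) + 1) * (m - 1) :=
      mul_le_mul_of_nonneg_left hd1 (by omega)
    have k2 : (2 * (t : ℤ) + 1) * (-((m : ℤ) - 1)) ≤ (2 * (t : ℤ) + 1) * (((i : ℕ) : ℤ) - ((i' : ℕ) : ℤ)) :=
      mul_le_mul_of_nonneg_left hd2 (by omega)
    have k3 : (m : ℤ) - 1 ≤ (t : ℤ) * (m - 1) := by
      have : (0 : ℤ) ≤ ((t : ℤ) - 1) * (m - 1) := mul_nonneg (by omega) (by omega)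
      linarith
    have k4 : (0 : ℤ) ≤ (t : ℤ) * (m - 1) := mul_nonneg (by omega) (by omega)
    rw [abs_lt]
    constructor <;> nlinarith [k1, k2, k3, k4]
  have h0 := Int.eq_zero_of_abs_lt_dvd hz hb
  have h1 : (2 * (t : ℤ) + 1) * (((i : ℕ) : ℤ) - ((i' : ℕ) : ℤ)) = y' - y := by linarith
  rcases lt_or_gt_of_ne hne2 with hlt | hgt
  · have : (2 * (t : ℤ) + 1) * (((i : ℕ) : ℤ) - ((i' : ℕ) : ℤ)) ≤ (2 * (t : ℤ) + 1) * (-1) :=
      mul_le_mul_of_nonneg_left (by omega) (by omega)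
    omega
  · have : (2 * (t : ℤ) + 1) * 1 ≤ (2 * (t : ℤ) + 1) * (((i : ℕ) : ℤ) - ((i' : ℕ) : ℤ)) :=
      mul_le_mul_of_nonneg_left (by omega) (by omega)
    omega

end PBar
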