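import Pool.Agent.Work.MP_a5c73b_lc.PB.Defs

/-!
# BlkN (S): adjacent vertices have blocks differing by at most one

PROOF. Write `L, L'` for the two levels, `F L = max L (-1-L)`, a nonnegative integer. If
`-w <= L + L' < w` then `|F L - F L'| <= w` (four cases: both nonnegative: `L + L' <= w - 1` and
both are nonnegative, so the difference is at most `w-1`; both negative: `F L = -1-L`,
`F L' = -1-L'`, `F L + F L' = -2 - (L + L') <= w - 2`; opposite signs: `F L - F L' = L + 1 + L'`
or the negative of it, of absolute value at most `w`). So the quotients by `w` differ by at most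
one (`Int.ediv` of `x <= y + w`: `x / w <= y / w + 1`, by `Int.add_mul_ediv_right`,
`Int.ediv_le_ediv`).
-/

namespace PBar

theorem blk_adj (m w : ℕ) (hw : 1 ≤ w) (u v : Vt m w) (h : (Hg m w).Adj u v) :
    blk m w u.2 ≤ blk m w v.2 + 1 := by
  obtain ⟨-, -, h2, h3⟩ := h
  have hw' : (0 : ℤ) < w := by exact_mod_cast hw
  have key : max (lv m w u.2) (-1 - lv m w u.2) ≤
      max (lv m w v.2) (-1 - lv m w v.2) + 1 * (w : ℤ) := by
    rcases max_cases (lv m w u.2) (-1 - lv m w u.2) with ⟨e1, f1⟩ | ⟨e1, f1⟩ <;>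
    rcases max_cases (lv m w v.2) (-1 - lv m w v.2) with ⟨e2, f2⟩ | ⟨e2, f2⟩ <;>
    rw [e1, e2] <;> omega
  show max (lv m w u.2) (-1 - lv m w u.2) / (w : ℤ) ≤
    max (lv m w v.2) (-1 - lv m w v.2) / (w : ℤ) + 1
  rw [← Int.add_mul_ediv_right _ _ (ne_of_gt hw')]
  exact Int.ediv_le_ediv hw' key

end PBar
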