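import Pool.Agent.Work.MP_a5c73b_lc.PB.Defs
import Pool.Agent.Work.MP_a5c73b_lc.PB.BlkN

/-!
# PickR (S): far apart vertices, one in each third block

PROOF. Choose `t i` in block `3 i`, `i < m`. A common element `u` of the closed neighbourhoods of
`t i` and `t i'` has a block within one of `3i` and of `3i'` (`blk_adj`, both directions), so
`|3i - 3i'| <= 2` and `i = i'`.
-/

namespace PBar

theorem pick_row (m w : ℕ) (hw : 1 ≤ w) (T : Vt m w → Prop)
    (h : ∀ a : ℕ, a < 3 * m → ∃ v : Vt m w, T v ∧ blk m w v.2 = a) :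
    ∃ t : Fin m → Vt m w, (∀ i, T (t i)) ∧ ∀ i i', i ≠ i' → ∀ u,
      (u = t i ∨ (Hg m w).Adj (t i) u) → (u = t i' ∨ (Hg m w).Adj (t i') u) → False := by
  have hlt : ∀ i : Fin m, 3 * i.val < 3 * m := fun i => by
    have := i.2
    omega
  choose f hf1 hf2 using fun i : Fin m => h (3 * i.val) (hlt i)
  refine ⟨f, hf1, ?_⟩
  have key : ∀ i u, (u = f i ∨ (Hg m w).Adj (f i) u) →
      blk m w u.2 ≤ 3 * (i.val : ℤ) + 1 ∧ 3 * (i.val : ℤ) ≤ blk m w u.2 + 1 := by
    intro i u hu
    have h3 := hf2 i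
    push_cast at h3
    rcases hu with rfl | hu
    · constructor <;> linarith
    · have h1 := blk_adj m w hw _ _ hu
      have h2 := blk_adj m w hw _ _ hu.symm
      constructor <;> linarith
  intro i i' hii u hu hu'
  have h1 := key i u hu
  have h2 := key i' u hu'
  apply hii
  apply Fin.ext
  omega

end PBar
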