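import Pool.Agent.Work.MP_a5c73b_lc.PB.Defs

/-!
# ColC (S-M): one layer of one column has one color

PROOF. It suffices to treat `b.val = b'.val + w` (two elements of `Fin (6mw)` with the same
residue `j` mod `w` are joined by steps of size `w` which stay in the range: induction on the
quotient difference). Let `L = lv b`, so `lv b' = L - w`, `-3mw + w <= L <= 3mw - 1`. Among the
`w` consecutive integers `-L, ..., w-1-L` there is exactly one, `L'`, such that `L' + 3mw` is
congruent to `j` modulo `w`; it satisfies `-3mw < -3mw + 1 <= L' <= 3mw - 1`, so `L' = lv b''` for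
some `b''` with `b''.val % w = j`. Now `0 <= L + L' <= w-1` and `-w <= L - w + L' <= -1`, so
`(κ + 1, b'')` is adjacent in `Hg m w` to `(κ, b)` and to `(κ, b')` (distinct since `κ + 1 ≠ κ`
in `ZMod (4m+1)`, `m >= 1`). All three satisfy `P`, so `c (κ,b) ≠ c (κ+1,b'') ≠ c (κ,b')` and
`c (κ,b) = c (κ,b')` in `Bool`.
-/

namespace PBar

private theorem one_ne (m : ℕ) (hm : 1 ≤ m) (κ : ZMod (4 * m + 1)) : κ ≠ κ + 1 := by
  haveI : Fact (1 < 4 * m + 1) := ⟨by omega⟩
  intro h
  have h1 : (1 : ZMod (4 * m + 1)) = 0 := by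
    have h2 : κ + 0 = κ + 1 := by rw [add_zero]; exact h
    exact (add_left_cancel h2).symm
  exact one_ne_zero h1

private theorem step (m w j : ℕ) (hm : 1 ≤ m) (hw : 1 ≤ w) (c : Vt m w → Bool) (P : Vt m w → Prop)
    (hc : ∀ u v, P u → P v → u.2.val % w = j → v.2.val % w = j → (Hg m w).Adj u v → c u ≠ c v)
    (κ : ZMod (4 * m + 1))
    (hP : ∀ v : Vt m w, (v.1 = κ ∨ v.1 = κ + 1) → v.2.val % w = j → P v)
    (b b' : Fin (6 * m * w)) (hb : b.val % w = j) (hb' : b'.val % w = j)
    (hbb : b.val = b'.val + w) : c (κ, b) = c (κ, b') := by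
  have hj : j < w := by
    rw [← hb]
    exact Nat.mod_lt _ hw
  have hbd : w * (b.val / w) + j = b.val := by
    have h := Nat.div_add_mod b.val w
    rw [hb] at h
    exact h
  obtain ⟨Q, hQ⟩ : ∃ Q, Q = b.val / w := ⟨_, rfl⟩
  rw [← hQ] at hbd
  have hlt := b.isLt
  have hQ6 : Q < 6 * m := by
    by_contra hcon
    have h1 : w * (6 * m) ≤ w * Q := Nat.mul_le_mul_left w (not_lt.1 hcon)
    have h2 : w * (6 * m) = 6 * m * w := by ring
    omega
  obtain ⟨R, hR⟩ : ∃ R, Q + (R + 1) = 6 * m := ⟨6 * m - Q - 1, by omega⟩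
  have hQ1 : 1 ≤ Q := by
    by_contra hcon
    have h1 : Q = 0 := by omega
    rw [h1, mul_zero] at hbd
    omega
  have hprod : w * Q + w * R + w = 6 * m * w := by
    have h1 : w * (Q + (R + 1)) = w * (6 * m) := by rw [hR]
    nlinarith
  have hwQ : w ≤ w * Q := Nat.le_mul_of_pos_right w hQ1
  obtain ⟨b2, hb2j, hb2l, hb2u⟩ : ∃ b2 : Fin (6 * m * w), b2.val % w = j ∧
      6 * m * w ≤ b.val + b2.val ∧ b.val + b2.val < 6 * m * w + w := by
    by_cases h2j : 2 * j < w
    · refine ⟨⟨w * (R + 1) + j, ?_⟩, ?_, ?_, ?_⟩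
      · have : w * (R + 1) = w * R + w := by ring
        omega
      · show (w * (R + 1) + j) % w = j
        rw [Nat.mul_add_mod, Nat.mod_eq_of_lt hj]
      · show 6 * m * w ≤ b.val + (w * (R + 1) + j)
        have : w * (R + 1) = w * R + w := by ring
        omega
      · show b.val + (w * (R + 1) + j) < 6 * m * w + w
        have : w * (R + 1) = w * R + w := by ring
        omega
    · refine ⟨⟨w * R + j, ?_⟩, ?_, ?_, ?_⟩
      · omega
      · show (w * R + j) % w = j
        rw [Nat.mul_add_mod, Nat.mod_eq_of_lt hj]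
      · show 6 * m * w ≤ b.val + (w * R + j)
        omega
      · show b.val + (w * R + j) < 6 * m * w + w
        omega
  have hk := one_ne m hm κ
  have hz : (6 * m * w : ℤ) = 3 * m * w + 3 * m * w := by ring
  have hl' : (6 * m * w : ℤ) ≤ (b.val : ℤ) + b2.val := by exact_mod_cast hb2l
  have hu' : (b.val : ℤ) + b2.val < 6 * m * w + w := by exact_mod_cast hb2u
  have hbz : (b.val : ℤ) = b'.val + w := by exact_mod_cast hbb
  have a1 : (Hg m w).Adj (κ, b) (κ + 1, b2) := by
    refine ⟨fun h => hk (congrArg Prod.fst h), Or.inl rfl, ?_, ?_⟩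
    · show -(w : ℤ) ≤ ((b.val : ℤ) - 3 * m * w) + ((b2.val : ℤ) - 3 * m * w)
      omega
    · show ((b.val : ℤ) - 3 * m * w) + ((b2.val : ℤ) - 3 * m * w) < w
      omega
  have a2 : (Hg m w).Adj (κ, b') (κ + 1, b2) := by
    refine ⟨fun h => hk (congrArg Prod.fst h), Or.inl rfl, ?_, ?_⟩
    · show -(w : ℤ) ≤ ((b'.val : ℤ) - 3 * m * w) + ((b2.val : ℤ) - 3 * m * w)
      omega
    · show ((b'.val : ℤ) - 3 * m * w) + ((b2.val : ℤ) - 3 * m * w) < w
      omega
  have P1 := hP (κ, b) (Or.inl rfl) hb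
  have P2 := hP (κ, b') (Or.inl rfl) hb'
  have P3 := hP (κ + 1, b2) (Or.inr rfl) hb2j
  have n1 := hc _ _ P1 P3 hb hb2j a1
  have n2 := hc _ _ P2 P3 hb' hb2j a2
  have hbool : ∀ x y z : Bool, x ≠ z → y ≠ z → x = y := by decide
  exact hbool _ _ _ n1 n2

private theorem steps (m w j : ℕ) (hm : 1 ≤ m) (hw : 1 ≤ w) (c : Vt m w → Bool) (P : Vt m w → Prop)
    (hc : ∀ u v, P u → P v → u.2.val % w = j → v.2.val % w = j → (Hg m w).Adj u v → c u ≠ c v)
    (κ : ZMod (4 * m + 1))
    (hP : ∀ v : Vt m w, (v.1 = κ ∨ v.1 = κ + 1) → v.2.val % w = j → P v) (d : ℕ) :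
    ∀ (b b' : Fin (6 * m * w)), b.val % w = j → b'.val % w = j → b.val = b'.val + w * d →
      c (κ, b) = c (κ, b') := by
  induction d with
  | zero =>
    intro b b' _ _ h
    have : b = b' := Fin.ext (by simpa using h)
    rw [this]
  | succ d ih =>
    intro b b' hb hb' h
    have e : w * (d + 1) = w * d + w := by ring
    have hlt : b'.val + w * d < 6 * m * w := by
      have := b.isLt
      omega
    have hmod : (b'.val + w * d) % w = j := by
      rw [Nat.add_mul_mod_self_left]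
      exact hb'
    have h1 := step m w j hm hw c P hc κ hP b ⟨b'.val + w * d, hlt⟩ hb hmod (by
      show b.val = b'.val + w * d + w
      omega)
    rw [h1]
    exact ih ⟨b'.val + w * d, hlt⟩ b' hmod hb' rfl

theorem col_const (m w j : ℕ) (hm : 1 ≤ m) (hw : 1 ≤ w) (c : Vt m w → Bool) (P : Vt m w → Prop)
    (hc : ∀ u v, P u → P v → u.2.val % w = j → v.2.val % w = j → (Hg m w).Adj u v → c u ≠ c v)
    (κ : ZMod (4 * m + 1))
    (hP : ∀ v : Vt m w, (v.1 = κ ∨ v.1 = κ + 1) → v.2.val % w = j → P v)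
    (b b' : Fin (6 * m * w)) (hb : b.val % w = j) (hb' : b'.val % w = j) :
    c (κ, b) = c (κ, b') := by
  have key : ∀ b b' : Fin (6 * m * w), b.val % w = j → b'.val % w = j → b'.val ≤ b.val →
      c (κ, b) = c (κ, b') := by
    intro b b' hb hb' hle
    have h1 := Nat.div_add_mod b.val w
    have h2 := Nat.div_add_mod b'.val w
    rw [hb] at h1
    rw [hb'] at h2
    have h3 : b'.val / w ≤ b.val / w := Nat.div_le_div_right hle
    refine steps m w j hm hw c P hc κ hP (b.val / w - b'.val / w) b b' hb hb' ?_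
    obtain ⟨e, he⟩ := Nat.exists_eq_add_of_le h3
    rw [he, Nat.add_sub_cancel_left]
    rw [he, mul_add] at h1
    omega
  rcases le_total b'.val b.val with h | h
  · exact key b b' hb hb' h
  · exact (key b' b hb' hb h).symm

end PBar
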