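import Mathlib

/-!
# Zig (S): an odd cyclic zigzag

PROOF. By induction on `i : ℕ`: for even `i` one has `p (κ + i) = p κ` and `q (κ + i) = q κ`
(two steps: `p κ ≠ q (κ+1) ≠ p (κ+2)` in `Bool` gives equality). With `i = 4m`:
`κ + 4m = κ - 1` because `4m+1 = 0` in `ZMod (4m+1)`. So `p κ = p (κ - 1) ≠ q κ`.
-/

namespace PBar

theorem zig (m : ℕ) (p q : ZMod (4 * m + 1) → Bool) (h1 : ∀ κ, p κ ≠ q (κ + 1))
    (h2 : ∀ κ, q κ ≠ p (κ + 1)) (κ : ZMod (4 * m + 1)) : p κ ≠ q κ := by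
  have hb : ∀ x y z : Bool, x ≠ y → y ≠ z → z = x := by decide
  have hs : ∀ κ, p (κ + 1 + 1) = p κ := fun κ => hb _ _ _ (h1 κ) (h2 (κ + 1))
  have hi : ∀ i : ℕ, p (κ - 1 + ((2 * i : ℕ) : ZMod (4 * m + 1))) = p (κ - 1) := by
    intro i
    induction i with
    | zero => simp
    | succ i ih =>
      have e : κ - 1 + ((2 * (i + 1) : ℕ) : ZMod (4 * m + 1)) =
          κ - 1 + ((2 * i : ℕ) : ZMod (4 * m + 1)) + 1 + 1 := by
        push_cast
        ring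
      rw [e, hs, ih]
  have h0 : ((4 * m + 1 : ℕ) : ZMod (4 * m + 1)) = 0 := ZMod.natCast_self _
  have e2 : κ - 1 + ((2 * (2 * m + 1) : ℕ) : ZMod (4 * m + 1)) = κ := by
    have e3 : ((2 * (2 * m + 1) : ℕ) : ZMod (4 * m + 1)) = ((4 * m + 1 : ℕ) : ZMod (4 * m + 1)) + 1 := by
      push_cast
      ring
    rw [e3, h0]
    ring
  have h3 := hi (2 * m + 1)
  rw [e2] at h3
  have h4 := h1 (κ - 1)
  rw [sub_add_cancel] at h4
  rw [h3]
  exact h4

end PBar
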