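import Pool.Agent.Work.MP_a5c73b_lc.PB.Defs
import Pool.Agent.Work.MP_a5c73b_lc.PB.Zig
import Pool.Agent.Work.MP_a5c73b_lc.PB.ColC

/-!
# RowCol (M): all blocks are hit or all pairs of columns are hit

PROOF. Suppose both alternatives fail: there are `a < 3m` such that `P v` for all `v` with
`blk v.2 = a`, and `κ` such that `P v` for all `v` with `v.1 = κ` or `v.1 = κ + 1`. Let `bp` be the
element of `Fin (6mw)` of value `3mw + wa + j`, and `bm` the one of value
`3mw - w(a+1) + j`; so `lv bp = wa + j`, `lv bm = j - w(a+1)`, both have residue `j` modulo `w`,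
and `blk bp = blk bm = a` (`-1 - lv bm = wa + (w - 1 - j)`). Since `lv bp + lv bm = 2j - w` is in
`[-w, w)`, for all `x` the vertices `(x, bp)` and `(x + 1, bm)` are adjacent, and `(x, bm)` and
`(x + 1, bp)` too. By `zig` with `p x = c (x, bp)`, `q x = c (x, bm)`: `c (κ, bp) ≠ c (κ, bm)`.
By `col_const`: `c (κ, bp) = c (κ, bm)`. Contradiction.
-/

namespace PBar

private theorem ediv_aux (w : ℕ) (a : ℕ) (r : ℤ) (h0 : 0 ≤ r) (h1 : r < w) :
    ((w : ℤ) * a + r) / (w : ℤ) = a := by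
  have hw : (w : ℤ) ≠ 0 := by omega
  rw [Int.add_comm, Int.add_mul_ediv_left _ _ hw, Int.ediv_eq_zero_of_lt h0 h1, zero_add]

private theorem one_ne' (m : ℕ) (hm : 1 ≤ m) (κ : ZMod (4 * m + 1)) : κ ≠ κ + 1 := by
  haveI : Fact (1 < 4 * m + 1) := ⟨by omega⟩
  intro h
  have h1 : (1 : ZMod (4 * m + 1)) = 0 := by
    have h2 : κ + 0 = κ + 1 := by rw [add_zero]; exact h
    exact (add_left_cancel h2).symm
  exact one_ne_zero h1

theorem row_col (m w j : ℕ) (hm : 1 ≤ m) (hj : j < w) (c : Vt m w → Bool) (P : Vt m w → Prop)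
    (hc : ∀ u v, P u → P v → u.2.val % w = j → v.2.val % w = j → (Hg m w).Adj u v → c u ≠ c v) :
    (∀ a : ℕ, a < 3 * m → ∃ v : Vt m w, ¬ P v ∧ blk m w v.2 = a) ∨
      (∀ κ : ZMod (4 * m + 1), ∃ v : Vt m w, ¬ P v ∧ (v.1 = κ ∨ v.1 = κ + 1)) := by
  by_contra hcon
  rw [not_or] at hcon
  obtain ⟨hA, hB⟩ := hcon
  push Not at hA hB
  obtain ⟨a, ha, hA⟩ := hA
  obtain ⟨κ, hB⟩ := hB
  have hA' : ∀ v : Vt m w, blk m w v.2 = a → P v := by
    intro v hv
    by_contra h
    exact hA v h hv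
  have hB' : ∀ v : Vt m w, (v.1 = κ ∨ v.1 = κ + 1) → P v := by
    intro v hv
    by_contra h
    rcases hv with h1 | h1
    · exact (hB v h).1 h1
    · exact (hB v h).2 h1
  obtain ⟨a', ha'⟩ : ∃ a', a + (a' + 1) = 3 * m := ⟨3 * m - a - 1, by omega⟩
  have hp : w * a + w * a' + w = 3 * m * w := by
    have h1 : w * (a + (a' + 1)) = w * (3 * m) := by rw [ha']
    nlinarith
  have h6 : 6 * m * w = 3 * m * w + 3 * m * w := by ring
  have h3w : 3 * m * w = w * (3 * m) := by ring
  let bp : Fin (6 * m * w) := ⟨3 * m * w + w * a + j, by omega⟩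
  let bm : Fin (6 * m * w) := ⟨w * a' + j, by omega⟩
  have hbpj : bp.val % w = j := by
    show (3 * m * w + w * a + j) % w = j
    rw [h3w, ← mul_add, Nat.mul_add_mod, Nat.mod_eq_of_lt hj]
  have hbmj : bm.val % w = j := by
    show (w * a' + j) % w = j
    rw [Nat.mul_add_mod, Nat.mod_eq_of_lt hj]
  have hpz : (w : ℤ) * a + w * a' + w = 3 * m * w := by exact_mod_cast hp
  have hjz : (j : ℤ) < w := by exact_mod_cast hj
  have hj0 : (0 : ℤ) ≤ j := by positivity
  have hwa : (0 : ℤ) ≤ (w : ℤ) * a := by positivity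
  have lbp : lv m w bp = w * a + j := by
    show (((3 * m * w + w * a + j : ℕ)) : ℤ) - 3 * m * w = w * a + j
    push_cast
    ring
  have lbm : lv m w bm = j - w * a - w := by
    show (((w * a' + j : ℕ)) : ℤ) - 3 * m * w = j - w * a - w
    push_cast
    linarith
  have kbp : blk m w bp = a := by
    unfold blk
    rw [lbp, max_eq_left (by linarith)]
    exact ediv_aux w a j hj0 hjz
  have kbm : blk m w bm = a := by
    unfold blk
    rw [lbm, max_eq_right (by linarith)]
    have e : -1 - ((j : ℤ) - w * a - w) = w * a + (w - 1 - j) := by ring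
    rw [e]
    exact ediv_aux w a _ (by linarith) (by linarith)
  have hadj1 : ∀ x : ZMod (4 * m + 1), (Hg m w).Adj (x, bp) (x + 1, bm) := by
    intro x
    refine ⟨fun h => one_ne' m hm x (congrArg Prod.fst h), Or.inl rfl, ?_, ?_⟩
    · show -(w : ℤ) ≤ lv m w bp + lv m w bm
      rw [lbp, lbm]
      linarith
    · show lv m w bp + lv m w bm < w
      rw [lbp, lbm]
      linarith
  have hadj2 : ∀ x : ZMod (4 * m + 1), (Hg m w).Adj (x, bm) (x + 1, bp) := by
    intro x
    refine ⟨fun h => one_ne' m hm x (congrArg Prod.fst h), Or.inl rfl, ?_, ?_⟩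
    · show -(w : ℤ) ≤ lv m w bm + lv m w bp
      rw [lbp, lbm]
      linarith
    · show lv m w bm + lv m w bp < w
      rw [lbp, lbm]
      linarith
  have hz := zig m (fun x => c (x, bp)) (fun x => c (x, bm))
    (fun x => hc _ _ (hA' (x, bp) kbp) (hA' (x + 1, bm) kbm) hbpj hbmj (hadj1 x))
    (fun x => hc _ _ (hA' (x, bm) kbm) (hA' (x + 1, bp) kbp) hbmj hbpj (hadj2 x)) κ
  exact hz (col_const m w j hm (by omega) c P hc κ (fun v hv _ => hB' v hv) bp bm hbpj hbmj)

end PBar
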