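import Pool.Agent.Work.MP_a5c73b_lc.PB.Defs
import Pool.Agent.Work.MP_a5c73b_lc.PB.GoodL
import Pool.Agent.Work.MP_a5c73b_lc.PB.RowCol
import Pool.Agent.Work.MP_a5c73b_lc.PB.PickR
import Pool.Agent.Work.MP_a5c73b_lc.PB.PickC
import Pool.Agent.Work.MP_a5c73b_lc.PB.GridE
import Pool.Agent.Work.MP_a5c73b_lc.PB.PickG

/-!
# Far (S-M): every piece misses `m` far apart main vertices

PROOF. Write `M = t * m >= 1` and `T v` for `Sum.inl v ∉ B`.
* `Perf` or `¬ OddPack`: `good_layer` (for `M, w`) gives `j` and `c`; `row_col` with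
  `P v = (Sum.inl v ∈ B)` gives one of two alternatives, and `pick_row` or `pick_col` a function
  `Fin (t * m) → Vt`; compose with `Fin.castLE : Fin m → Fin (t * m)` (`m <= t * m`), which is
  injective.
* `GridFree`: by `pick_grid` it suffices that for each `c₀` some `v` with `inl v ∉ B` has its
  column in the window. Otherwise all `inl (f p)`, with `f` from `grid_emb` for `c₀`
  (`t <= t * m`), are in `B`, and `p ↦ ⟨inl (f p), _⟩` is an embedding of the grid into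
  `(Pg (Hg M w))ᶜᶜ.induce B` (`compl_compl`; `inl u, inl v` adjacent in `Pg H` iff `u, v`
  adjacent in `H`), contradicting `GridFree`.
-/

namespace PBar

private lemma far_aux (m t w : ℕ) (hm : 1 ≤ m) (ht : 1 ≤ t) (hw : 1 ≤ w)
    (B : Set (Vt (t * m) w ⊕ Vt (t * m) w))
    (h : Perf (Pg (Hg (t * m) w))ᶜ B ∨ ¬ OddPack (Pg (Hg (t * m) w))ᶜ B w) :
    ∃ f : Fin m → Vt (t * m) w, (∀ i, Sum.inl (f i) ∉ B) ∧ ∀ i i', i ≠ i' → ∀ u,
      (u = f i ∨ (Hg (t * m) w).Adj (f i) u) → (u = f i' ∨ (Hg (t * m) w).Adj (f i') u) →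
        False := by
  have hM : 1 ≤ t * m := Nat.mul_pos ht hm
  obtain ⟨j, c, hj, hc⟩ := good_layer (t * m) w hM hw B h
  obtain ⟨f, hf1, hf2⟩ : ∃ f : Fin (t * m) → Vt (t * m) w, (∀ i, ¬ (Sum.inl (f i) ∈ B)) ∧
      ∀ i i', i ≠ i' → ∀ u, (u = f i ∨ (Hg (t * m) w).Adj (f i) u) →
        (u = f i' ∨ (Hg (t * m) w).Adj (f i') u) → False := by
    rcases row_col (t * m) w j hM hj c (fun v => Sum.inl v ∈ B)
      (fun u v hu hv => hc u v hu hv) with h1 | h1
    · exact pick_row (t * m) w hw (fun v => ¬ (Sum.inl v ∈ B)) h1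
    · exact pick_col (t * m) w (fun v => ¬ (Sum.inl v ∈ B)) h1
  have hle : m ≤ t * m := Nat.le_mul_of_pos_left m ht
  refine ⟨fun i => f (Fin.castLE hle i), fun i => hf1 _, fun i i' hii => ?_⟩
  exact hf2 _ _ fun e => hii (Fin.castLE_injective hle e)

theorem far (m t w : ℕ) (hm : 1 ≤ m) (ht : 1 ≤ t) (hw : 1 ≤ w)
    (B : Set (Vt (t * m) w ⊕ Vt (t * m) w))
    (h : Perf (Pg (Hg (t * m) w))ᶜ B ∨ ¬ OddPack (Pg (Hg (t * m) w))ᶜ B w ∨
      GridFree (Pg (Hg (t * m) w))ᶜ B t) :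
    ∃ f : Fin m → Vt (t * m) w, (∀ i, Sum.inl (f i) ∉ B) ∧ ∀ i i', i ≠ i' → ∀ u,
      (u = f i ∨ (Hg (t * m) w).Adj (f i) u) → (u = f i' ∨ (Hg (t * m) w).Adj (f i') u) →
        False := by
  rcases h with h | h | h
  · exact far_aux m t w hm ht hw B (Or.inl h)
  · exact far_aux m t w hm ht hw B (Or.inr h)
  · refine pick_grid m t w ht (fun v => Sum.inl v ∉ B) ?_
    intro c₀
    by_contra hcon
    push Not at hcon
    obtain ⟨f, hf⟩ := grid_emb (t * m) t w ht (Nat.le_mul_of_pos_right t hm) hw c₀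
    have hB : ∀ p, Sum.inl (f p) ∈ B := by
      intro p
      by_contra hp
      obtain ⟨x, hx1, hx2⟩ := hf p
      exact hcon (f p) hp x hx1 hx2
    refine h.false ⟨⟨fun p => ⟨Sum.inl (f p), hB p⟩, ?_⟩, ?_⟩
    · intro p q hpq
      exact f.injective (Sum.inl_injective (congrArg Subtype.val hpq))
    · intro p q
      change ((Pg (Hg (t * m) w))ᶜᶜ).Adj (Sum.inl (f p)) (Sum.inl (f q)) ↔ _
      rw [compl_compl]
      constructor
      · rintro (⟨u, v, hu, hv, huv⟩ | ⟨u, hu, hv⟩ | ⟨u, hu, hv⟩)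
        · rw [← Sum.inl_injective hu, ← Sum.inl_injective hv] at huv
          exact f.map_rel_iff.1 huv
        · exact absurd hv (by simp)
        · exact absurd hu (by simp)
      · intro hpq
        exact Or.inl ⟨f p, f q, rfl, rfl, f.map_rel_iff.2 hpq⟩

end PBar
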