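import Pool.Agent.Work.MP_a5c73b_lc.PB.Defs
import Pool.Agent.Work.MP_a5c73b_lc.PB.Pend
import Pool.Agent.Work.MP_a5c73b_lc.PB.Far
import Pool.Agent.Work.MP_a5c73b_lc.PB.CntT

/-!
# Comb (S-M): the combinatorial theorem

PROOF. Write `M = t * m`, `V = Vt M w`, `z = 0 : Fin (8w)`. For `B ∈ 𝓑` let `f_B` be as in `far`;
by `cnt_t` the set `X_B` of `c : V → Fin (8w)` such that no `f_B i` is selected
(`c (f_B i) = z` and no neighbour has color `z`) satisfies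
`|X_B| (16w)^m <= (16w-1)^m (8w)^|V|`. For every `c`, the set
`I c = {v | c v = z ∧ ∀ u, Adj v u → c u ≠ z}` is independent, so by `pg_max` the set
`(I c).disjSum (I c)ᶜ` is a maximum clique, contained in some `B ∈ 𝓑`; every `v ∈ I c` has
`inl v ∈ B`, so no `f_B i` is in `I c`: `c ∈ X_B`. Hence the `X_B` cover all `(8w)^|V|`
functions: `(8w)^|V| (16w)^m <= ∑_B |X_B| (16w)^m <= |𝓑| (16w-1)^m (8w)^|V|`; divide by
`(8w)^|V| > 0` (`Finset.card_biUnion_le`).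
-/

namespace PBar

theorem comb (m t w : ℕ) (hm : 1 ≤ m) (ht : 1 ≤ t) (hw : 1 ≤ w)
    (𝓑 : Finset (Set (Vt (t * m) w ⊕ Vt (t * m) w)))
    (h1 : ∀ B ∈ 𝓑, Perf (Pg (Hg (t * m) w))ᶜ B ∨ ¬ OddPack (Pg (Hg (t * m) w))ᶜ B w ∨
      GridFree (Pg (Hg (t * m) w))ᶜ B t)
    (h2 : ∀ K : Finset (Vt (t * m) w ⊕ Vt (t * m) w), (Pg (Hg (t * m) w))ᶜ.IsMaximumClique K →
      ∃ B ∈ 𝓑, (K : Set (Vt (t * m) w ⊕ Vt (t * m) w)) ⊆ B) :
    (16 * w) ^ m ≤ 𝓑.card * (16 * w - 1) ^ m := by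
  classical
  obtain ⟨z⟩ : Nonempty (Fin (8 * w)) := ⟨⟨0, by omega⟩⟩
  have hfar : ∀ B : Set (Vt (t * m) w ⊕ Vt (t * m) w), ∃ f : Fin m → Vt (t * m) w, B ∈ 𝓑 →
      (∀ i, Sum.inl (f i) ∉ B) ∧ ∀ i i', i ≠ i' → ∀ u,
      (u = f i ∨ (Hg (t * m) w).Adj (f i) u) → (u = f i' ∨ (Hg (t * m) w).Adj (f i') u) →
        False := by
    intro B
    by_cases hB : B ∈ 𝓑
    · obtain ⟨f, hf⟩ := far m t w hm ht hw B (h1 B hB)
      exact ⟨f, fun _ => hf⟩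
    · have hM : 1 ≤ t * m := Nat.mul_pos ht hm
      refine ⟨fun _ => (0, ⟨0, ?_⟩), fun h => absurd h hB⟩
      exact Nat.mul_pos (by omega) hw
  choose F hF using hfar
  obtain ⟨X, hX⟩ : ∃ X : Set (Vt (t * m) w ⊕ Vt (t * m) w) → Finset (Vt (t * m) w → Fin (8 * w)),
      ∀ B, X B = Finset.univ.filter (fun c : Vt (t * m) w → Fin (8 * w) =>
        ∀ i, ¬ (c (F B i) = z ∧ ∀ u, (Hg (t * m) w).Adj (F B i) u → c u ≠ z)) :=
    ⟨_, fun _ => rfl⟩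
  have hcard : ∀ B ∈ 𝓑, (X B).card * (16 * w) ^ m ≤
      (16 * w - 1) ^ m * (8 * w) ^ Fintype.card (Vt (t * m) w) := by
    intro B hB
    rw [hX]
    exact cnt_t (t * m) m w hw z (F B) (hF B hB).2
  have hcov : (Finset.univ : Finset (Vt (t * m) w → Fin (8 * w))) ⊆ 𝓑.biUnion X := by
    intro c _
    obtain ⟨I, hI⟩ : ∃ I : Finset (Vt (t * m) w), ∀ v, v ∈ I ↔
        (c v = z ∧ ∀ u, (Hg (t * m) w).Adj v u → c u ≠ z) :=
      ⟨Finset.univ.filter (fun v => c v = z ∧ ∀ u, (Hg (t * m) w).Adj v u → c u ≠ z),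
        fun v => by simp⟩
    have hind : ∀ u ∈ I, ∀ v ∈ I, ¬ (Hg (t * m) w).Adj u v := by
      intro u hu v hv huv
      exact ((hI u).1 hu).2 v huv ((hI v).1 hv).1
    obtain ⟨B, hB, hKB⟩ := h2 _ (pg_max (Hg (t * m) w) I hind)
    rw [Finset.mem_biUnion]
    refine ⟨B, hB, ?_⟩
    rw [hX]
    refine Finset.mem_filter.2 ⟨Finset.mem_univ _, fun i hi => ?_⟩
    have h3 : F B i ∈ I := (hI _).2 hi
    refine (hF B hB).1 i (hKB ?_)
    rw [Finset.mem_coe]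
    exact Finset.inl_mem_disjSum.2 h3
  have h4 : (8 * w) ^ Fintype.card (Vt (t * m) w) ≤ ∑ B ∈ 𝓑, (X B).card := by
    have h5 := (Finset.card_le_card hcov).trans Finset.card_biUnion_le
    rw [Finset.card_univ, Fintype.card_fun, Fintype.card_fin] at h5
    exact h5
  have h6 : (8 * w) ^ Fintype.card (Vt (t * m) w) * (16 * w) ^ m ≤
      (8 * w) ^ Fintype.card (Vt (t * m) w) * (𝓑.card * (16 * w - 1) ^ m) := by
    calc (8 * w) ^ Fintype.card (Vt (t * m) w) * (16 * w) ^ m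
        ≤ (∑ B ∈ 𝓑, (X B).card) * (16 * w) ^ m := Nat.mul_le_mul_right _ h4
      _ = ∑ B ∈ 𝓑, (X B).card * (16 * w) ^ m := Finset.sum_mul ..
      _ ≤ ∑ _B ∈ 𝓑, (16 * w - 1) ^ m * (8 * w) ^ Fintype.card (Vt (t * m) w) :=
        Finset.sum_le_sum hcard
      _ = (8 * w) ^ Fintype.card (Vt (t * m) w) * (𝓑.card * (16 * w - 1) ^ m) := by
        rw [Finset.sum_const, smul_eq_mul]
        ring
  exact Nat.le_of_mul_le_mul_left h6 (by positivity)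

end PBar
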