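import Mathlib

/-!
# RatC (S-M): rational approximation of a configuration with strict inequalities

PROOF. The set of `(x, y, r)` in `(ι → ℝ) × (ι → ℝ) × (ι → ℝ)` satisfying all the (finitely
many, strict, polynomial) conditions is open (`isOpen_iInter_of_finite`, `isOpen_lt`), and
contains the given triple. The rational points are dense (`DenseRange.piMap`,
`Rat.denseRange_cast`, `DenseRange.prodMap`), so it contains one.
-/

namespace PBar

theorem rat_conf {ι : Type} [Finite ι] (R : ι → ι → Prop) (ε : ℝ) (x y r : ι → ℝ)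
    (hr : ∀ i, 1 < r i ∧ r i < 1 + ε)
    (h : ∀ i j, i ≠ j →
      (R i j → (r i + r j) ^ 2 < (x i - x j) ^ 2 + (y i - y j) ^ 2) ∧
      (¬ R i j → (x i - x j) ^ 2 + (y i - y j) ^ 2 < (r i + r j) ^ 2)) :
    ∃ x' y' r' : ι → ℚ, (∀ i, 1 < r' i ∧ (r' i : ℝ) < 1 + ε) ∧ ∀ i j, i ≠ j →
      (R i j → (r' i + r' j) ^ 2 < (x' i - x' j) ^ 2 + (y' i - y' j) ^ 2) ∧
      (¬ R i j → (x' i - x' j) ^ 2 + (y' i - y' j) ^ 2 < (r' i + r' j) ^ 2) := by
  have hev : ∀ᶠ p : (ι → ℝ) × (ι → ℝ) × (ι → ℝ) in nhds (x, y, r),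
      (∀ i, 1 < p.2.2 i ∧ p.2.2 i < 1 + ε) ∧ ∀ i j, i ≠ j →
      (R i j → (p.2.2 i + p.2.2 j) ^ 2 < (p.1 i - p.1 j) ^ 2 + (p.2.1 i - p.2.1 j) ^ 2) ∧
      (¬ R i j → (p.1 i - p.1 j) ^ 2 + (p.2.1 i - p.2.1 j) ^ 2 < (p.2.2 i + p.2.2 j) ^ 2) := by
    have cx : ∀ i, Continuous fun p : (ι → ℝ) × (ι → ℝ) × (ι → ℝ) => p.1 i := fun i =>
      (continuous_apply i).comp continuous_fst
    have cy : ∀ i, Continuous fun p : (ι → ℝ) × (ι → ℝ) × (ι → ℝ) => p.2.1 i := fun i =>
      (continuous_apply i).comp (continuous_fst.comp continuous_snd)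
    have cr : ∀ i, Continuous fun p : (ι → ℝ) × (ι → ℝ) × (ι → ℝ) => p.2.2 i := fun i =>
      (continuous_apply i).comp (continuous_snd.comp continuous_snd)
    have c1 : ∀ i j, Continuous fun p : (ι → ℝ) × (ι → ℝ) × (ι → ℝ) =>
        (p.2.2 i + p.2.2 j) ^ 2 := fun i j => ((cr i).add (cr j)).pow 2
    have c2 : ∀ i j, Continuous fun p : (ι → ℝ) × (ι → ℝ) × (ι → ℝ) =>
        (p.1 i - p.1 j) ^ 2 + (p.2.1 i - p.2.1 j) ^ 2 := fun i j =>
      (((cx i).sub (cx j)).pow 2).add (((cy i).sub (cy j)).pow 2)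
    refine Filter.Eventually.and ?_ ?_
    · rw [Filter.eventually_all]
      intro i
      exact (continuousAt_const.eventually_lt (cr i).continuousAt (hr i).1).and
        ((cr i).continuousAt.eventually_lt continuousAt_const (hr i).2)
    · rw [Filter.eventually_all]
      intro i
      rw [Filter.eventually_all]
      intro j
      by_cases hij : i = j
      · exact Filter.Eventually.of_forall fun p h => absurd hij h
      · by_cases hR : R i j
        · refine ((c1 i j).continuousAt.eventually_lt (c2 i j).continuousAt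
            ((h i j hij).1 hR)).mono ?_
          intro p hp _
          exact ⟨fun _ => hp, fun hn => absurd hR hn⟩
        · refine ((c2 i j).continuousAt.eventually_lt (c1 i j).continuousAt
            ((h i j hij).2 hR)).mono ?_
          intro p hp _
          exact ⟨fun hn => absurd hn hR, fun _ => hp⟩
  obtain ⟨t, ht, hto, htm⟩ := mem_nhds_iff.1 hev
  have hdr : DenseRange (Pi.map (fun (_ : ι) (a : ℚ) => (a : ℝ))) :=
    DenseRange.piMap fun _ => Rat.denseRange_cast
  obtain ⟨q, hq⟩ := (hdr.prodMap (hdr.prodMap hdr)).exists_mem_open hto ⟨_, htm⟩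
  have hq' := ht hq
  obtain ⟨h1, h2⟩ := hq'
  refine ⟨q.1, q.2.1, q.2.2, ?_, ?_⟩
  · intro i
    have h3 := h1 i
    simp only [Prod.map_snd, Pi.map_apply] at h3
    exact ⟨by exact_mod_cast h3.1, h3.2⟩
  · intro i j hij
    have h3 := h2 i j hij
    simp only [Prod.map_fst, Prod.map_snd, Pi.map_apply] at h3
    exact ⟨fun hR => by exact_mod_cast h3.1 hR, fun hR => by exact_mod_cast h3.2 hR⟩

end PBar
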