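import Pool.Agent.Work.MP_a5c73b_lc.PB.Defs

/-!
# Form (S): the power of two disks in polar form

PROOF. Write `p = sin B + cos B sinh t`, `p' = sin B' + cos B' sinh t'`, `ρ = 1/p`, `ρ' = 1/p'`.
From `cos² + sin² = 1` and `cosh² - sinh² = 1`:
`ρ² - (ρ cos B cosh t)² = ρ² (sin² B - cos² B sinh² t) = ρ (sin B - cos B sinh t)`, the same for
primes. The left side divided by `s²` is
`ρ (sin B - cos B sinh t) + ρ' (sin B' - cos B' sinh t')
 - 2 ρ ρ' (cos φ cos φ' + sin φ sin φ') - 2 ρ ρ' cos B cosh t cos B' cosh t'`, and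
`ρ (sin B - cos B sinh t) = ρ ρ' (sin B - cos B sinh t)(sin B' + cos B' sinh t')`, and
symmetrically; the sum of the two products is `2 ρ ρ' (sin B sin B' - cos B cos B' sinh t sinh t')`.
Conclude with `cos (φ - φ') = cos φ cos φ' + sin φ sin φ'`,
`cosh (t + t') = cosh t cosh t' + sinh t sinh t'`. (Replace `1 / p` by a variable `ρ` with
`ρ * p = 1` and use `linear_combination` with the identities `cos² + sin² = 1` for `φ, φ', B, B'`
and `cosh² = sinh² + 1` for `t, t'`.)
-/

namespace PBar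

theorem form (s φ t B φ' t' B' : ℝ) (h : Real.sin B + Real.cos B * Real.sinh t ≠ 0)
    (h' : Real.sin B' + Real.cos B' * Real.sinh t' ≠ 0) :
    (s * (rho t B * Real.cos φ) - s * (rho t' B' * Real.cos φ')) ^ 2 +
      (s * (rho t B * Real.sin φ) - s * (rho t' B' * Real.sin φ')) ^ 2 -
      (s * (rho t B * (Real.cos B * Real.cosh t)) +
        s * (rho t' B' * (Real.cos B' * Real.cosh t'))) ^ 2 =
      2 * s ^ 2 * (rho t B * rho t' B') * Dq φ t B φ' t' B' := by
  have hρ : rho t B * (Real.sin B + Real.cos B * Real.sinh t) = 1 := by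
    unfold rho
    rw [one_div, inv_mul_cancel₀ h]
  have hρ' : rho t' B' * (Real.sin B' + Real.cos B' * Real.sinh t') = 1 := by
    unfold rho
    rw [one_div, inv_mul_cancel₀ h']
  unfold Dq
  rw [Real.cos_sub, Real.cosh_add]
  have e1 := Real.sin_sq_add_cos_sq φ
  have e2 := Real.sin_sq_add_cos_sq φ'
  have e3 := Real.sin_sq_add_cos_sq B
  have e4 := Real.sin_sq_add_cos_sq B'
  have e5 := Real.cosh_sq t
  have e6 := Real.cosh_sq t'
  generalize rho t B = ρ at *
  generalize rho t' B' = ρ' at *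
  generalize Real.sin φ = b at *
  generalize Real.cos φ = a at *
  generalize Real.sin φ' = b' at *
  generalize Real.cos φ' = a' at *
  generalize Real.sin B = S at *
  generalize Real.cos B = C at *
  generalize Real.sin B' = S' at *
  generalize Real.cos B' = C' at *
  generalize Real.sinh t = x at *
  generalize Real.cosh t = k at *
  generalize Real.sinh t' = x' at *
  generalize Real.cosh t' = k' at *
  have h1 : ρ ^ 2 * (1 - C ^ 2 * k ^ 2) = ρ * (S - C * x) * (ρ' * (S' + C' * x')) := by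
    linear_combination (-ρ ^ 2) * e3 - ρ ^ 2 * C ^ 2 * e5 + ρ * (S - C * x) * (hρ - hρ')
  have h2 : ρ' ^ 2 * (1 - C' ^ 2 * k' ^ 2) = ρ' * (S' - C' * x') * (ρ * (S + C * x)) := by
    linear_combination (-ρ' ^ 2) * e4 - ρ' ^ 2 * C' ^ 2 * e6 + ρ' * (S' - C' * x') * (hρ' - hρ)
  linear_combination s ^ 2 * h1 + s ^ 2 * h2 + s ^ 2 * ρ ^ 2 * e1 + s ^ 2 * ρ' ^ 2 * e2

end PBar
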