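import Pool.Agent.Work.MP_a5c73b_lc.PB.Defs

/-!
# ParA (S-M): radii close to one

PROOF. `F (B, t) = rho t B * (cos B * cosh t)` and `p (B, t) = sin B + cos B sinh t` are continuous
at `(ψ/2, 0)`, where `p = sin (ψ/2) > 0` and `F = cos (ψ/2) / sin (ψ/2) =: c > 0`
(`0 < ψ/2 < π/2`). Put `s = (1 + ε/2) / c`. Then `s F = 1 + ε/2` at this point, and the conditions
`p > 0`, `1 < s F < 1 + ε` hold in a neighbourhood (`Metric.eventually_nhds_iff` or
`Metric.continuousAt_iff` on `ℝ × ℝ`, sup distance); take `η` smaller than its radius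
and smaller than `ψ / 4`.
-/

namespace PBar


theorem par_a (ψ ε : ℝ) (h0 : 0 < ψ) (h1 : ψ < Real.pi) (hε : 0 < ε) :
    ∃ s η : ℝ, 0 < s ∧ 0 < η ∧ 4 * η < ψ ∧ ∀ B t : ℝ, |B - ψ / 2| ≤ η → |t| ≤ η →
      0 < Real.sin B + Real.cos B * Real.sinh t ∧
      1 < s * (rho t B * (Real.cos B * Real.cosh t)) ∧
      s * (rho t B * (Real.cos B * Real.cosh t)) < 1 + ε := by
  have hs : 0 < Real.sin (ψ / 2) := Real.sin_pos_of_pos_of_lt_pi (by linarith) (by linarith)
  have hc : 0 < Real.cos (ψ / 2) := Real.cos_pos_of_mem_Ioo ⟨by linarith, by linarith⟩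
  set s : ℝ := (1 + ε / 2) * Real.sin (ψ / 2) / Real.cos (ψ / 2) with hsdef
  have hs0 : 0 < s := by positivity
  have hP : Continuous fun z : ℝ × ℝ => Real.sin z.1 + Real.cos z.1 * Real.sinh z.2 := by
    have h1 : Continuous fun z : ℝ × ℝ => Real.sinh z.2 := Real.continuous_sinh.comp continuous_snd
    have h2 : Continuous fun z : ℝ × ℝ => Real.cos z.1 := Real.continuous_cos.comp continuous_fst
    have h3 : Continuous fun z : ℝ × ℝ => Real.sin z.1 := Real.continuous_sin.comp continuous_fst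
    exact h3.add (h2.mul h1)
  have hQ : Continuous fun z : ℝ × ℝ => Real.cos z.1 * Real.cosh z.2 := by
    have h1 : Continuous fun z : ℝ × ℝ => Real.cosh z.2 := Real.continuous_cosh.comp continuous_snd
    have h2 : Continuous fun z : ℝ × ℝ => Real.cos z.1 := Real.continuous_cos.comp continuous_fst
    exact h2.mul h1
  have hP0 : Real.sin ((ψ / 2, (0 : ℝ)) : ℝ × ℝ).1 +
      Real.cos ((ψ / 2, (0 : ℝ)) : ℝ × ℝ).1 * Real.sinh ((ψ / 2, (0 : ℝ)) : ℝ × ℝ).2 =
      Real.sin (ψ / 2) := by simp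
  have hF : ContinuousAt (fun z : ℝ × ℝ => s * (1 / (Real.sin z.1 + Real.cos z.1 * Real.sinh z.2) *
      (Real.cos z.1 * Real.cosh z.2))) (ψ / 2, (0 : ℝ)) := by
    refine continuousAt_const.mul (ContinuousAt.mul (continuousAt_const.div hP.continuousAt ?_)
      hQ.continuousAt)
    rw [hP0]
    exact hs.ne'
  have hF0 : s * (1 / (Real.sin ((ψ / 2, (0 : ℝ)) : ℝ × ℝ).1 +
      Real.cos ((ψ / 2, (0 : ℝ)) : ℝ × ℝ).1 * Real.sinh ((ψ / 2, (0 : ℝ)) : ℝ × ℝ).2) *
      (Real.cos ((ψ / 2, (0 : ℝ)) : ℝ × ℝ).1 * Real.cosh ((ψ / 2, (0 : ℝ)) : ℝ × ℝ).2)) =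
      1 + ε / 2 := by
    rw [hP0]
    simp only [Real.cosh_zero, mul_one]
    rw [hsdef]
    field_simp
  have e1 : ∀ᶠ z in nhds ((ψ / 2, (0 : ℝ)) : ℝ × ℝ),
      0 < Real.sin z.1 + Real.cos z.1 * Real.sinh z.2 :=
    hP.continuousAt.eventually_const_lt (lt_of_lt_of_eq hs hP0.symm)
  have e2 := hF.eventually_const_lt (u := 1) (lt_of_lt_of_eq (by linarith) hF0.symm)
  have e3 := hF.eventually_lt_const (u := 1 + ε) (lt_of_eq_of_lt hF0 (by linarith))
  obtain ⟨δ, hδ, hball⟩ := Metric.eventually_nhds_iff.mp (e1.and (e2.and e3))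
  refine ⟨s, min (δ / 2) (ψ / 8), hs0, lt_min (by linarith) (by linarith), ?_, ?_⟩
  · have := min_le_right (δ / 2) (ψ / 8)
    linarith
  · intro B t hB ht
    have hm := min_le_left (δ / 2) (ψ / 8)
    have hd : dist ((B, t) : ℝ × ℝ) (ψ / 2, 0) < δ := by
      rw [Prod.dist_eq, max_lt_iff]
      constructor
      · rw [Real.dist_eq]
        simp only
        linarith
      · rw [Real.dist_eq]
        simp only [sub_zero]
        linarith
    obtain ⟨g1, g2, g3⟩ := hball hd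
    exact ⟨g1, g2, g3⟩

end PBar
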