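import Mathlib

/-!
# ParB (S-M): the aperture of the main disks

PROOF. Let `g τ = arccos (cos (ψ/2) / cosh (τ/2))`, continuous in `τ`, `g 0 = ψ/2`
(`Real.arccos_cos`). So for small `τ > 0` one has `g τ < ψ/2 + δ`, `τ M <= η`. For `τ > 0`,
`cosh (τ/2) > 1` (`Real.one_lt_cosh`) and `cos (ψ/2) > 0`, so
`0 < cos (ψ/2) / cosh (τ/2) < cos (ψ/2)`; hence `ψ/2 < g τ < π/2`
(`Real.arccos_lt_arccos`, `Real.arccos_zero`), and `cos (g τ) * cosh (τ/2) = cos (ψ/2)`
(`Real.cos_arccos`).
-/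

set_option autoImplicit false
namespace PBar

theorem par_b (ψ δ η : ℝ) (M : ℕ) (h0 : 0 < ψ) (h1 : ψ < Real.pi) (hδ : 0 < δ) (hη : 0 < η) :
    ∃ τ A : ℝ, 0 < τ ∧ τ * M ≤ η ∧ ψ / 2 < A ∧ A < ψ / 2 + δ ∧ A < Real.pi / 2 ∧
      Real.cos A * Real.cosh (τ / 2) = Real.cos (ψ / 2) := by
  have hpi := Real.pi_pos
  have hc0 : 0 < Real.cos (ψ / 2) := Real.cos_pos_of_mem_Ioo ⟨by linarith, by linarith⟩
  have hc1 : Real.cos (ψ / 2) ≤ 1 := Real.cos_le_one _
  have hg0 : Real.arccos (Real.cos (ψ / 2)) = ψ / 2 := Real.arccos_cos (by linarith) (by linarith)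
  have hcont : Continuous (fun τ : ℝ => Real.arccos (Real.cos (ψ / 2) / Real.cosh (τ / 2))) := by
    refine Real.continuous_arccos.comp ?_
    refine continuous_const.div (Real.continuous_cosh.comp (continuous_id.div_const 2)) ?_
    intro x
    exact (Real.cosh_pos _).ne'
  have hev : ∀ᶠ τ in nhds (0 : ℝ), Real.arccos (Real.cos (ψ / 2) / Real.cosh (τ / 2)) < ψ / 2 + δ := by
    refine hcont.continuousAt.eventually_lt continuousAt_const ?_
    simp only [zero_div, Real.cosh_zero, div_one]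
    rw [hg0]
    linarith
  obtain ⟨r, hr, hr2⟩ := Metric.eventually_nhds_iff.1 hev
  have hM : 0 < (M : ℝ) + 1 := by positivity
  refine ⟨min (r / 2) (η / ((M : ℝ) + 1)), Real.arccos (Real.cos (ψ / 2) /
    Real.cosh (min (r / 2) (η / ((M : ℝ) + 1)) / 2)), ?_, ?_, ?_, ?_, ?_, ?_⟩
  · exact lt_min (by linarith) (by positivity)
  · calc min (r / 2) (η / ((M : ℝ) + 1)) * M ≤ η / ((M : ℝ) + 1) * ((M : ℝ) + 1) := by
          refine mul_le_mul (min_le_right _ _) (by linarith) (by positivity) (by positivity)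
      _ = η := by field_simp
  all_goals
    set τ := min (r / 2) (η / ((M : ℝ) + 1)) with hτ
    have hτ0 : 0 < τ := lt_min (by linarith) (by positivity)
    have hch : 1 < Real.cosh (τ / 2) := Real.one_lt_cosh.2 (by positivity)
    have hq1 : Real.cos (ψ / 2) / Real.cosh (τ / 2) < Real.cos (ψ / 2) := by
      rw [div_lt_iff₀ (by linarith)]
      nlinarith
    have hq0 : 0 < Real.cos (ψ / 2) / Real.cosh (τ / 2) := by positivity
  · have h5 := Real.arccos_lt_arccos (by linarith) hq1 hc1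
    rw [hg0] at h5
    exact h5
  · apply hr2
    rw [Real.dist_eq, sub_zero, abs_of_pos hτ0]
    exact lt_of_le_of_lt (min_le_left _ _) (by linarith)
  · rw [← Real.arccos_zero]
    exact Real.arccos_lt_arccos (by norm_num) hq0 (by linarith)
  · rw [Real.cos_arccos (by linarith) (by linarith)]
    field_simp

end PBar
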