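import Mathlib

/-!
# ParC (S): the aperture of the pendant disks

PROOF. At `β = β₀` the difference `cos A cos β cosh σ - sin A sin β - cos (A + β₀)` equals
`cos A cos β₀ (cosh σ - 1) > 0` (`Real.cos_add`, `Real.one_lt_cosh`, cosines positive on
`(-π/2, π/2)`); it is continuous in `β`, so it is positive for some `β` in `(β₀, β₀ + κ)`.
-/

namespace PBar

theorem par_c (A β₀ σ κ : ℝ) (hA0 : 0 < A) (hA1 : A < Real.pi / 2) (hβ0 : 0 < β₀)
    (hβ1 : β₀ < Real.pi / 2) (hσ : 0 < σ) (hκ : 0 < κ) :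
    ∃ β : ℝ, β₀ < β ∧ β < β₀ + κ ∧
      Real.cos (A + β₀) + Real.sin A * Real.sin β < Real.cos A * Real.cos β * Real.cosh σ := by
  have hA : 0 < Real.cos A := Real.cos_pos_of_mem_Ioo ⟨by linarith, hA1⟩
  have hB : 0 < Real.cos β₀ := Real.cos_pos_of_mem_Ioo ⟨by linarith, hβ1⟩
  have hc : 1 < Real.cosh σ := Real.one_lt_cosh.2 hσ.ne'
  have h0 : Real.cos (A + β₀) + Real.sin A * Real.sin β₀ <
      Real.cos A * Real.cos β₀ * Real.cosh σ := by
    rw [Real.cos_add]
    nlinarith [mul_pos (mul_pos hA hB) (sub_pos.2 hc)]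
  have hf : Continuous fun β : ℝ => Real.cos (A + β₀) + Real.sin A * Real.sin β := by fun_prop
  have hg : Continuous fun β : ℝ => Real.cos A * Real.cos β * Real.cosh σ := by fun_prop
  have hop : IsOpen {β : ℝ | Real.cos (A + β₀) + Real.sin A * Real.sin β <
      Real.cos A * Real.cos β * Real.cosh σ} := isOpen_lt hf hg
  obtain ⟨ε, hε, hball⟩ := Metric.isOpen_iff.1 hop β₀ h0
  refine ⟨β₀ + min ε κ / 2, ?_, ?_, ?_⟩
  · have := lt_min hε hκ
    linarith
  · have h1 := lt_min hε hκ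
    have h2 := min_le_right ε κ
    linarith
  · refine hball ?_
    rw [Metric.mem_ball, Real.dist_eq, add_sub_cancel_left]
    have h1 := lt_min hε hκ
    have h2 := min_le_left ε κ
    rw [abs_of_pos (by linarith)]
    linarith

end PBar
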