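import Pool.Agent.Work.MP_a5c73b_lc.PB.Defs
import Pool.Agent.Work.MP_a5c73b_lc.PB.ParA
import Pool.Agent.Work.MP_a5c73b_lc.PB.ParB
import Pool.Agent.Work.MP_a5c73b_lc.PB.ParC

/-!
# Par (S-M): all parameters

PROOF. `par_a` gives `s, η` with `4 η < ψ`. Put `δ = η / 2`. `par_b` with `δ := η / 4`, `η`, `M`
gives `τ, A` with `ψ/2 < A < ψ/2 + η/4`, `A < π/2`. Put `β₀ = ψ - δ - A`, so
`ψ/2 - 3η/4 < β₀ < ψ/2 - η/2` (in particular positive and less than `π/2`). `par_c` with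
`σ = τ / w`, `κ = η / 4` gives `β ∈ (β₀, β₀ + η/4)`. Then
`0 < β < ψ/2 - η/4`, `|A - ψ/2| <= η`, `|β - ψ/2| <= η`, `A + β₀ = ψ - δ`,
`ψ - δ < A + β < ψ - δ + η/4 < ψ + δ`, `2 A < ψ + η/2 < 3 ψ`, and `|t| <= τ M <= η`.
-/

set_option autoImplicit false
namespace PBar

theorem par (ψ ε : ℝ) (M w : ℕ) (h0 : 0 < ψ) (h1 : ψ < Real.pi) (hε : 0 < ε) (hw : 1 ≤ w) :
    ∃ s τ A β δ : ℝ, 0 < s ∧ 0 < τ ∧ 0 < A ∧ A < Real.pi / 2 ∧ 2 * A < 3 * ψ ∧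
      Real.cos A * Real.cosh (τ / 2) = Real.cos (ψ / 2) ∧ 0 < β ∧ 2 * β < ψ ∧ 0 < δ ∧ δ < ψ ∧
      ψ - δ < A + β ∧ A + β < ψ + δ ∧
      Real.cos (ψ - δ) + Real.sin A * Real.sin β < Real.cos A * Real.cos β * Real.cosh (τ / w) ∧
      ∀ B t : ℝ, (B = A ∨ B = β) → |t| ≤ τ * M →
        0 < Real.sin B + Real.cos B * Real.sinh t ∧
        1 < s * (rho t B * (Real.cos B * Real.cosh t)) ∧
        s * (rho t B * (Real.cos B * Real.cosh t)) < 1 + ε := by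
  obtain ⟨s, η, hs, hη, hηψ, H⟩ := par_a ψ ε h0 h1 hε
  obtain ⟨τ, A, hτ, hτM, hA1, hA2, hA3, hcos⟩ := par_b ψ (η / 4) η M h0 h1 (by linarith) hη
  have hw' : (0 : ℝ) < w := by exact_mod_cast hw
  obtain ⟨β, hb1, hb2, hb3⟩ := par_c A (ψ - η / 2 - A) (τ / w) (η / 4) (by linarith) hA3
    (by linarith) (by linarith) (by positivity) (by linarith)
  have e1 : A + (ψ - η / 2 - A) = ψ - η / 2 := by ring
  rw [e1] at hb3
  refine ⟨s, τ, A, β, η / 2, hs, hτ, by linarith, hA3, by linarith, hcos, by linarith, by linarith,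
    by linarith, by linarith, by linarith, by linarith, hb3, ?_⟩
  intro B t hB ht
  refine H B t ?_ (by linarith)
  rw [abs_le]
  rcases hB with rfl | rfl <;> constructor <;> linarith

end PBar
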