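import Mathlib

/-!
# CosN (M): the cosines of the angles between columns

Column `κ` has polar angle `κ.val (π - ψ)`, `ψ = π / (4m+1)`.

PROOF. Let `N = 4m+1`, `d = κ.val - κ'.val ∈ ℤ`, `|d| <= 4m`. Since `N (π - ψ) = 4m π`, the
number `cos (d (π - ψ) + s)` depends only on `d` modulo `N`; and for an integer `d`,
`cos (d (π - ψ) + s) = (-1)^d cos (s - d ψ)`.
* If `κ = κ' + 1` then `d = 1` modulo `N`: `-cos (π - ψ + s) = cos (s - ψ) = cos (ψ - s)`.
* If `κ' = κ + 1` then `d = -1`: `-cos (-(π - ψ) + s) = cos (ψ + s)`.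
* Otherwise let `D ∈ {0, ..., 4m}` be `d` modulo `N`, `D ≠ 1`, `D ≠ 4m`. If `D` is odd,
  `3 <= D`, `D + 1 <= N`, and `-cos (D (π - ψ) + s) = cos (D ψ - s)`, with
  `D ψ - s ∈ [3ψ - |s|, π + |s|]`. If `D` is even put `e = N - D`, odd, `3 <= e <= N`:
  `-cos (D (π - ψ) + s) = -cos (s - D ψ) = cos (π - D ψ + s) = cos (e ψ + s)`, again with
  argument in `[3ψ - |s|, π + |s|]`. If `x` is in this interval then `cos x <= cos (3ψ - |s|)`: for
  `x <= π` by monotonicity of `cos` on `[0, π]` (`Real.cos_le_cos_of_nonneg_of_le_pi`,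
  `3ψ - |s| >= 0`), for `x > π` because `cos x = cos (2π - x)` and
  `3ψ - |s| <= π - |s| <= 2π - x <= π` (`5 ψ <= π`).
-/

namespace PBar

private theorem cn_per {m : ℕ} {ψ : ℝ} (hψ : ψ * (4 * m + 1) = Real.pi) (s : ℝ)
    {d D t : ℤ} (h : d = D + (4 * m + 1 : ℕ) * t) :
    Real.cos ((d : ℝ) * (Real.pi - ψ) + s) = Real.cos ((D : ℝ) * (Real.pi - ψ) + s) := by
  have h1 : (d : ℝ) * (Real.pi - ψ) + s =
      (D : ℝ) * (Real.pi - ψ) + s + ((2 * m * t : ℤ) : ℝ) * (2 * Real.pi) := by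
    rw [h]
    push_cast
    linear_combination (-(t : ℝ)) * hψ
  rw [h1, Real.cos_add_int_mul_two_pi]

private theorem cn_odd {ψ s : ℝ} {D : ℤ} (h : Odd D) :
    -Real.cos ((D : ℝ) * (Real.pi - ψ) + s) = Real.cos ((D : ℝ) * ψ - s) := by
  obtain ⟨j, rfl⟩ := h
  have h1 : ((2 * j + 1 : ℤ) : ℝ) * (Real.pi - ψ) + s =
      (-(((2 * j + 1 : ℤ) : ℝ) * ψ - s) + Real.pi) + (j : ℝ) * (2 * Real.pi) := by
    push_cast
    ring
  rw [h1, Real.cos_add_int_mul_two_pi, Real.cos_add_pi, Real.cos_neg, neg_neg]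

private theorem cn_even {m : ℕ} {ψ : ℝ} (hψ : ψ * (4 * m + 1) = Real.pi) {s : ℝ} {D : ℤ}
    (h : Even D) : -Real.cos ((D : ℝ) * (Real.pi - ψ) + s) =
      Real.cos (((4 * m + 1 : ℝ) - D) * ψ + s) := by
  obtain ⟨j, rfl⟩ := h
  have h1 : ((4 * m + 1 : ℝ) - ((j + j : ℤ) : ℝ)) * ψ + s =
      (((j + j : ℤ) : ℝ) * (Real.pi - ψ) + s + Real.pi) + ((-j : ℤ) : ℝ) * (2 * Real.pi) := by
    push_cast
    linear_combination hψ
  rw [h1, Real.cos_add_int_mul_two_pi, Real.cos_add_pi]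

private theorem cn_le {ψ s x : ℝ} (h5 : 5 * ψ ≤ Real.pi) (hs : |s| ≤ ψ)
    (h1 : 3 * ψ - |s| ≤ x) (h2 : x ≤ Real.pi + |s|) :
    Real.cos x ≤ Real.cos (3 * ψ - |s|) := by
  have hs0 := abs_nonneg s
  by_cases h : x ≤ Real.pi
  · exact Real.cos_le_cos_of_nonneg_of_le_pi (by linarith) h h1
  · push Not at h
    rw [← Real.cos_two_pi_sub x]
    exact Real.cos_le_cos_of_nonneg_of_le_pi (by linarith) (by linarith) (by linarith)

private theorem cn_mod {m : ℕ} (κ κ' : ZMod (4 * m + 1)) :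
    ∃ t : ℤ, ((κ.val : ℤ) - κ'.val) = ((κ - κ').val : ℤ) + (4 * m + 1 : ℕ) * t := by
  have h1 : (((κ.val : ℤ) - κ'.val - ((κ - κ').val : ℤ) : ℤ) : ZMod (4 * m + 1)) = 0 := by
    push_cast
    rw [ZMod.natCast_zmod_val, ZMod.natCast_zmod_val, ZMod.natCast_zmod_val]
    ring
  obtain ⟨t, ht⟩ := (ZMod.intCast_zmod_eq_zero_iff_dvd _ _).1 h1
  exact ⟨t, by linarith⟩

private theorem cn_val {m : ℕ} (x : ZMod (4 * m + 1)) (D : ℕ) (h : x.val = D) :
    x = (D : ZMod (4 * m + 1)) := by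
  rw [← h, ZMod.natCast_zmod_val]

theorem cos_nb (m : ℕ) (hm : 1 ≤ m) (ψ : ℝ) (hψ : ψ = Real.pi / (4 * m + 1))
    (κ κ' : ZMod (4 * m + 1)) (s : ℝ) :
    (κ = κ' + 1 → -Real.cos (((κ.val : ℝ) - κ'.val) * (Real.pi - ψ) + s) = Real.cos (ψ - s)) ∧
    (κ' = κ + 1 → -Real.cos (((κ.val : ℝ) - κ'.val) * (Real.pi - ψ) + s) = Real.cos (ψ + s)) ∧
    (κ ≠ κ' + 1 → κ' ≠ κ + 1 → |s| ≤ ψ →
      -Real.cos (((κ.val : ℝ) - κ'.val) * (Real.pi - ψ) + s) ≤ Real.cos (3 * ψ - |s|)) := by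
  have hN : (0 : ℝ) < 4 * m + 1 := by positivity
  have hψN : ψ * (4 * m + 1) = Real.pi := by
    rw [hψ]
    field_simp
  have hψ0 : 0 < ψ := by
    rw [hψ]
    have := Real.pi_pos
    positivity
  obtain ⟨t, ht⟩ := cn_mod κ κ'
  have hcast : ((κ.val : ℝ) - κ'.val) = (((κ.val : ℤ) - κ'.val : ℤ) : ℝ) := by
    push_cast
    rfl
  have hred : Real.cos (((κ.val : ℝ) - κ'.val) * (Real.pi - ψ) + s) =
      Real.cos ((((κ - κ').val : ℤ) : ℝ) * (Real.pi - ψ) + s) := by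
    rw [hcast]
    exact cn_per hψN s ht
  have hm1 : (1 : ℝ) ≤ m := by exact_mod_cast hm
  have h5 : 5 * ψ ≤ Real.pi := by
    have h6 : 0 ≤ ψ * (4 * (m : ℝ) - 4) := mul_nonneg hψ0.le (by linarith)
    nlinarith
  have hlt := ZMod.val_lt (κ - κ')
  refine ⟨fun h => ?_, fun h => ?_, fun h1 h2 hs => ?_⟩
  · have hv : (κ - κ').val = 1 := by
      rw [h, add_sub_cancel_left]
      exact ZMod.val_one'' (by omega)
    rw [hred, hv]
    rw [cn_odd (D := ((1 : ℕ) : ℤ)) (by decide)]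
    congr 1
    push_cast
    ring
  · have hv : (κ - κ') = ((4 * m : ℕ) : ZMod (4 * m + 1)) := by
      rw [h]
      have h3 : ((4 * m + 1 : ℕ) : ZMod (4 * m + 1)) = 0 := ZMod.natCast_self _
      push_cast at h3 ⊢
      linear_combination -h3
    have hv2 : (κ - κ').val = 4 * m := by
      rw [hv]
      exact ZMod.val_cast_of_lt (by omega)
    rw [hred, hv2]
    rw [cn_even hψN (D := ((4 * m : ℕ) : ℤ)) (by
      refine ⟨((2 * m : ℕ) : ℤ), ?_⟩
      push_cast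
      ring)]
    congr 1
    push_cast
    ring
  · rw [hred]
    obtain ⟨D, hD⟩ : ∃ D : ℕ, (κ - κ').val = D := ⟨_, rfl⟩
    have hD1 : D ≠ 1 := by
      rintro rfl
      apply h1
      have h3 := cn_val _ _ hD
      rw [Nat.cast_one] at h3
      rw [← h3]
      ring
    have hD4 : D ≠ 4 * m := by
      rintro rfl
      apply h2
      have h3 := cn_val _ _ hD
      have h4 : ((4 * m + 1 : ℕ) : ZMod (4 * m + 1)) = 0 := ZMod.natCast_self _
      push_cast at h3 h4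
      linear_combination -h3 - h4
    rw [hD] at hlt ⊢
    have hsl := neg_abs_le s
    have hsr := le_abs_self s
    rcases Nat.even_or_odd D with he | ho
    · have he' : Even ((D : ℕ) : ℤ) := by exact_mod_cast he
      rw [cn_even hψN he']
      have hD2 : D + 3 ≤ 4 * m + 1 := by
        obtain ⟨j, hj⟩ := he
        omega
      have hD3 : (D : ℝ) + 3 ≤ 4 * m + 1 := by exact_mod_cast hD2
      have hD0 : (0 : ℝ) ≤ D := by positivity
      apply cn_le h5 hs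
      · push_cast
        nlinarith
      · push_cast
        nlinarith
    · have ho' : Odd ((D : ℕ) : ℤ) := by exact_mod_cast ho
      rw [cn_odd ho']
      have hD2 : 3 ≤ D ∧ D ≤ 4 * m + 1 := by
        obtain ⟨j, hj⟩ := ho
        omega
      have hD3 : (3 : ℝ) ≤ D := by exact_mod_cast hD2.1
      have hD4 : (D : ℝ) ≤ 4 * m + 1 := by exact_mod_cast hD2.2
      apply cn_le h5 hs
      · push_cast
        nlinarith
      · push_cast
        nlinarith

end PBar
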