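import Pool.Agent.Work.MP_a5c73b_lc.PB.Defs
import Pool.Agent.Work.MP_a5c73b_lc.PB.CosN

/-!
# SgnMM (M): two main disks

PROOF. Write `T = ht u.2 + ht v.2 = τ (lv u + lv v + 1/2) / w` and
`c = -cos (φ - φ')`, the first term of `Dq` (`φ - φ' = (u.1.val - v.1.val)(π - ψ)`; use `cos_nb`
with `s = 0`). By `cosh T = 2 cosh² (T/2) - 1` and `sin² A = 1 - cos² A`:
`Dq = c + 1 - 2 cos² A cosh² (T/2)`.
* Consecutive columns: `c = cos ψ = 2 cos² (ψ/2) - 1`, so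
  `Dq = 2 (cos² (ψ/2) - cos² A cosh² (T/2)) = 2 cos² A (cosh² (τ/2) - cosh² (T/2))`, which is
  positive iff `|T| < τ` (`Real.cosh_lt_cosh`, `|T/2| < |τ/2|`), and negative iff `|T| > τ`
  (`cos A > 0`). And `|T| < τ` iff `|lv u + lv v + 1/2| < w` iff
  `-w <= lv u + lv v < w` (integers; `|lv u + lv v + 1/2| = w` is impossible, so `|T| > τ`
  otherwise). `u ≠ v` is automatic here.
* Other columns (the pair is not adjacent in `Hg`): `c <= cos (3ψ)` and `cosh (T/2) >= 1` give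
  `Dq <= cos (3ψ) + 1 - 2 cos² A = cos (3ψ) - cos (2A) < 0` because `0 < 2A < 3ψ <= π`
  (`Real.cos_lt_cos_of_nonneg_of_le_pi`; `ψ <= π/5`).
-/

namespace PBar

private theorem mm_psi {m : ℕ} (hm : 1 ≤ m) {ψ : ℝ} (hψ : ψ = Real.pi / (4 * m + 1)) :
    0 < ψ ∧ 5 * ψ ≤ Real.pi := by
  have hN : (0 : ℝ) < 4 * m + 1 := by positivity
  have hψN : ψ * (4 * m + 1) = Real.pi := by
    rw [hψ]
    field_simp
  have hψ0 : 0 < ψ := by
    rw [hψ]
    have := Real.pi_pos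
    positivity
  have hm1 : (1 : ℝ) ≤ m := by exact_mod_cast hm
  have h6 : 0 ≤ ψ * (4 * (m : ℝ) - 4) := mul_nonneg hψ0.le (by linarith)
  exact ⟨hψ0, by nlinarith⟩

private theorem mm_form (φ φ' t t' A : ℝ) : Dq φ t A φ' t' A =
    -Real.cos (φ - φ') + 1 - 2 * Real.cos A ^ 2 * Real.cosh ((t + t') / 2) ^ 2 := by
  have h1 : Real.cosh (t + t') = 2 * Real.cosh ((t + t') / 2) ^ 2 - 1 := by
    have h2 := Real.cosh_two_mul ((t + t') / 2)
    have h3 := Real.cosh_sq' ((t + t') / 2)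
    rw [show 2 * ((t + t') / 2) = t + t' by ring] at h2
    linarith
  have h4 := Real.sin_sq_add_cos_sq A
  unfold Dq
  linear_combination h4 - Real.cos A ^ 2 * h1

private theorem mm_T {m w : ℕ} (hw : 1 ≤ w) (τ : ℝ) (a b : Fin (6 * m * w)) :
    (ht m w τ a + ht m w τ b) / 2 = τ / 2 * (((lv m w a + lv m w b : ℤ) : ℝ) + 1 / 2) / w := by
  have hw0 : (w : ℝ) ≠ 0 := by
    have h1 : (1 : ℝ) ≤ w := by exact_mod_cast hw
    linarith
  unfold ht
  push_cast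
  field_simp
  ring

theorem sgn_mm (m w : ℕ) (hm : 1 ≤ m) (hw : 1 ≤ w) (ψ τ A : ℝ)
    (hψ : ψ = Real.pi / (4 * m + 1)) (hτ : 0 < τ) (hA0 : 0 < A) (hA1 : A < Real.pi / 2)
    (hA2 : 2 * A < 3 * ψ) (hA : Real.cos A * Real.cosh (τ / 2) = Real.cos (ψ / 2))
    (u v : Vt m w) (huv : u ≠ v) :
    ((Hg m w).Adj u v → 0 < Dq ((u.1.val : ℝ) * (Real.pi - ψ)) (ht m w τ u.2) A
      ((v.1.val : ℝ) * (Real.pi - ψ)) (ht m w τ v.2) A) ∧
    (¬ (Hg m w).Adj u v → Dq ((u.1.val : ℝ) * (Real.pi - ψ)) (ht m w τ u.2) A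
      ((v.1.val : ℝ) * (Real.pi - ψ)) (ht m w τ v.2) A < 0) := by
  obtain ⟨hψ0, h5⟩ := mm_psi hm hψ
  have hw1 : (1 : ℝ) ≤ w := by exact_mod_cast hw
  have hw0 : (0 : ℝ) < w := by linarith
  obtain ⟨S, hS⟩ : ∃ S : ℤ, S = lv m w u.2 + lv m w v.2 := ⟨_, rfl⟩
  obtain ⟨n1, n2, n3⟩ := cos_nb m hm ψ hψ u.1 v.1 0
  have hcA : 0 < Real.cos A := Real.cos_pos_of_mem_Ioo ⟨by linarith, hA1⟩
  have harg : (u.1.val : ℝ) * (Real.pi - ψ) - (v.1.val : ℝ) * (Real.pi - ψ) =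
      ((u.1.val : ℝ) - v.1.val) * (Real.pi - ψ) + 0 := by ring
  rw [mm_form, mm_T hw, harg, ← hS]
  obtain ⟨c, hc⟩ : ∃ c : ℝ, c = -Real.cos (((u.1.val : ℝ) - v.1.val) * (Real.pi - ψ) + 0) :=
    ⟨_, rfl⟩
  rw [← hc]
  have hcons : (v.1 = u.1 + 1 ∨ u.1 = v.1 + 1) → c = 2 * Real.cos (ψ / 2) ^ 2 - 1 := by
    intro h
    have h2 : c = Real.cos ψ := by
      rcases h with h | h
      · rw [hc, n2 h, add_zero]
      · rw [hc, n1 h, sub_zero]
    rw [h2]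
    have h3 := Real.cos_two_mul (ψ / 2)
    rw [show 2 * (ψ / 2) = ψ by ring] at h3
    exact h3
  have hsq : ∀ x : ℝ, (v.1 = u.1 + 1 ∨ u.1 = v.1 + 1) →
      c + 1 - 2 * Real.cos A ^ 2 * Real.cosh x ^ 2 =
        2 * Real.cos A ^ 2 * (Real.cosh (τ / 2) ^ 2 - Real.cosh x ^ 2) := by
    intro x h
    rw [hcons h]
    linear_combination (-2 * (Real.cos A * Real.cosh (τ / 2) + Real.cos (ψ / 2))) * hA
  have hA2' : 0 < 2 * Real.cos A ^ 2 := by positivity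
  have habs : |τ / 2 * ((S : ℝ) + 1 / 2) / w| = τ / 2 * (|(S : ℝ) + 1 / 2| / w) := by
    rw [abs_div, abs_mul, abs_of_pos hw0, abs_of_pos (by linarith : 0 < τ / 2), mul_div_assoc]
  have hτ2 : |τ / 2| = τ / 2 := abs_of_pos (by linarith)
  refine ⟨fun hadj => ?_, fun hadj => ?_⟩
  · obtain ⟨-, h2, h3, h4⟩ := hadj
    rw [hsq _ h2]
    apply mul_pos hA2'
    have h3' : -(w : ℝ) ≤ S := by
      rw [hS]
      exact_mod_cast h3
    have h4' : (S : ℝ) ≤ w - 1 := by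
      have h5 : S + 1 ≤ (w : ℤ) := by
        rw [hS]
        omega
      have h6 : (S : ℝ) + 1 ≤ w := by exact_mod_cast h5
      linarith
    have h7 : |(S : ℝ) + 1 / 2| / w < 1 := by
      rw [div_lt_one hw0, abs_lt]
      constructor <;> linarith
    have h8 : Real.cosh (τ / 2 * ((S : ℝ) + 1 / 2) / w) < Real.cosh (τ / 2) := by
      rw [Real.cosh_lt_cosh, habs, hτ2]
      nlinarith
    have h9 := Real.cosh_pos (τ / 2 * ((S : ℝ) + 1 / 2) / w)
    nlinarith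
  · by_cases h2 : v.1 = u.1 + 1 ∨ u.1 = v.1 + 1
    · rw [hsq _ h2]
      have h3 : ¬ (-(w : ℤ) ≤ S ∧ S < w) := by
        intro h
        apply hadj
        rw [hS] at h
        exact ⟨huv, h2, h.1, h.2⟩
      have h7 : 1 < |(S : ℝ) + 1 / 2| / w := by
        rw [lt_div_iff₀ hw0, one_mul, lt_abs]
        by_cases h4 : -(w : ℤ) ≤ S
        · have h5 : (w : ℤ) ≤ S := by
            by_contra h6
            exact h3 ⟨h4, not_le.1 h6⟩
          have h6 : (w : ℝ) ≤ S := by exact_mod_cast h5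
          left
          linarith
        · have h5 : S + 1 ≤ -(w : ℤ) := by omega
          have h6 : (S : ℝ) + 1 ≤ -(w : ℝ) := by exact_mod_cast h5
          right
          linarith
      have h8 : Real.cosh (τ / 2) < Real.cosh (τ / 2 * ((S : ℝ) + 1 / 2) / w) := by
        rw [Real.cosh_lt_cosh, habs, hτ2]
        nlinarith
      have h9 := Real.cosh_pos (τ / 2)
      have h10 : Real.cosh (τ / 2) ^ 2 - Real.cosh (τ / 2 * ((S : ℝ) + 1 / 2) / w) ^ 2 < 0 := by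
        nlinarith
      exact mul_neg_of_pos_of_neg hA2' h10
    · push Not at h2
      have h3 := n3 h2.2 h2.1 (by rw [abs_zero]; exact hψ0.le)
      rw [← hc, abs_zero, sub_zero] at h3
      have h4 := Real.one_le_cosh (τ / 2 * ((S : ℝ) + 1 / 2) / w)
      have h6 : Real.cos (3 * ψ) < Real.cos (2 * A) :=
        Real.cos_lt_cos_of_nonneg_of_le_pi (by linarith) (by linarith) hA2
      rw [Real.cos_two_mul A] at h6
      have h7 : 1 ≤ Real.cosh (τ / 2 * ((S : ℝ) + 1 / 2) / w) ^ 2 := by nlinarith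
      nlinarith

end PBar
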