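import Pool.Agent.Work.MP_a5c73b_lc.PB.Defs
import Pool.Agent.Work.MP_a5c73b_lc.PB.CosN

/-!
# SgnPM (M): a pendant disk and a main disk

PROOF. Write `T = -ht u.2 + ht v.2 = τ (lv v - lv u) / w` and
`c = -cos (φ - φ')`, `φ - φ' = ((u.1+1).val - v.1.val)(π - ψ) + δ`; use `cos_nb` with
`κ = u.1 + 1`, `κ' = v.1`, `s = δ`. `cosh T >= 1`, so
`Dq = c + sin β sin A - cos β cos A cosh T <= c - cos (A + β)`.
* `u = v`: `T = 0`, `c = cos (ψ - δ)` (first case of `cos_nb`), `Dq = cos (ψ - δ) - cos (A + β) > 0`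
  because `0 < ψ - δ < A + β < ψ + δ < π`.
* `u ≠ v`, `u.1 = v.1`: `lv u ≠ lv v`, so `|T| >= τ / w`, `cosh T >= cosh (τ/w)` and
  `Dq <= cos (ψ - δ) + sin A sin β - cos A cos β cosh (τ/w) < 0` by `h4` (`cos A, cos β > 0`).
* `v.1 = u.1 + 2`: `c = cos (ψ + δ) < cos (A + β)` by `h2` (`ψ + δ <= π`).
* otherwise `c <= cos (3ψ - δ) < cos (A + β)` because `0 < A + β < ψ + δ <= 3ψ - δ <= π`.
-/

namespace PBar

private theorem pm_psi {m : ℕ} (hm : 1 ≤ m) {ψ : ℝ} (hψ : ψ = Real.pi / (4 * m + 1)) :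
    0 < ψ ∧ 5 * ψ ≤ Real.pi := by
  have hN : (0 : ℝ) < 4 * m + 1 := by positivity
  have hψN : ψ * (4 * m + 1) = Real.pi := by
    rw [hψ]
    field_simp
  have hψ0 : 0 < ψ := by
    rw [hψ]
    have := Real.pi_pos
    positivity
  have hm1 : (1 : ℝ) ≤ m := by exact_mod_cast hm
  have h6 : 0 ≤ ψ * (4 * (m : ℝ) - 4) := mul_nonneg hψ0.le (by linarith)
  exact ⟨hψ0, by nlinarith⟩

theorem sgn_pm (m w : ℕ) (hm : 1 ≤ m) (hw : 1 ≤ w) (ψ τ A β δ : ℝ)
    (hψ : ψ = Real.pi / (4 * m + 1)) (hτ : 0 < τ) (hA0 : 0 < A) (hA1 : A < Real.pi / 2)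
    (hβ0 : 0 < β) (hβ1 : 2 * β < ψ) (hδ0 : 0 < δ) (hδ1 : δ < ψ) (h1 : ψ - δ < A + β)
    (h2 : A + β < ψ + δ)
    (h4 : Real.cos (ψ - δ) + Real.sin A * Real.sin β <
      Real.cos A * Real.cos β * Real.cosh (τ / w)) (u v : Vt m w) :
    (u = v → 0 < Dq (((u.1 + 1).val : ℝ) * (Real.pi - ψ) + δ) (-ht m w τ u.2) β
      ((v.1.val : ℝ) * (Real.pi - ψ)) (ht m w τ v.2) A) ∧
    (u ≠ v → Dq (((u.1 + 1).val : ℝ) * (Real.pi - ψ) + δ) (-ht m w τ u.2) β
      ((v.1.val : ℝ) * (Real.pi - ψ)) (ht m w τ v.2) A < 0) := by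
  obtain ⟨hψ0, h5⟩ := pm_psi hm hψ
  have hw1 : (1 : ℝ) ≤ w := by exact_mod_cast hw
  have hw0 : (0 : ℝ) < w := by linarith
  obtain ⟨n1, n2, n3⟩ := cos_nb m hm ψ hψ (u.1 + 1) v.1 δ
  have hcA : 0 < Real.cos A := Real.cos_pos_of_mem_Ioo ⟨by linarith, hA1⟩
  have hcβ : 0 < Real.cos β := Real.cos_pos_of_mem_Ioo ⟨by linarith, by linarith⟩
  have hδabs : |δ| = δ := abs_of_pos hδ0
  have harg : ((u.1 + 1).val : ℝ) * (Real.pi - ψ) + δ - (v.1.val : ℝ) * (Real.pi - ψ) =
      (((u.1 + 1).val : ℝ) - v.1.val) * (Real.pi - ψ) + δ := by ring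
  have hadd := Real.cos_add A β
  have hD : ∀ T : ℝ, Real.sin β * Real.sin A - Real.cos β * Real.cos A * Real.cosh T ≤
      -Real.cos (A + β) := by
    intro T
    have h6 := Real.one_le_cosh T
    have h7 : 0 < Real.cos β * Real.cos A := mul_pos hcβ hcA
    rw [hadd]
    nlinarith
  unfold Dq
  rw [harg]
  refine ⟨fun h => ?_, fun h => ?_⟩
  · subst h
    rw [n1 rfl]
    have h6 : -ht m w τ u.2 + ht m w τ u.2 = 0 := by ring
    rw [h6, Real.cosh_zero, mul_one]
    have h7 : Real.cos (A + β) < Real.cos (ψ - δ) :=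
      Real.cos_lt_cos_of_nonneg_of_le_pi (by linarith) (by linarith) h1
    rw [hadd] at h7
    linarith
  · by_cases hu : u.1 = v.1
    · rw [n1 (by rw [hu])]
      have hne : lv m w u.2 ≠ lv m w v.2 := by
        intro h6
        apply h
        refine Prod.ext hu ?_
        apply Fin.ext
        unfold lv at h6
        omega
      have h6 : 1 ≤ |((lv m w v.2 - lv m w u.2 : ℤ) : ℝ)| := by
        have h7 : 1 ≤ |lv m w v.2 - lv m w u.2| :=
          Int.one_le_abs (sub_ne_zero.2 (Ne.symm hne))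
        exact_mod_cast h7
      have h7 : Real.cosh (τ / w) ≤ Real.cosh (-ht m w τ u.2 + ht m w τ v.2) := by
        rw [Real.cosh_le_cosh]
        have h8 : -ht m w τ u.2 + ht m w τ v.2 =
            τ / w * ((lv m w v.2 - lv m w u.2 : ℤ) : ℝ) := by
          unfold ht
          push_cast
          field_simp
          ring
        rw [h8, abs_mul]
        have h9 : 0 ≤ |τ / w| := abs_nonneg _
        nlinarith
      have h8 : Real.cos β * Real.cos A * Real.cosh (τ / w) ≤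
          Real.cos β * Real.cos A * Real.cosh (-ht m w τ u.2 + ht m w τ v.2) :=
        mul_le_mul_of_nonneg_left h7 (mul_pos hcβ hcA).le
      have h9 : Real.cos A * Real.cos β * Real.cosh (τ / w) =
          Real.cos β * Real.cos A * Real.cosh (τ / w) := by ring
      have h10 : Real.sin A * Real.sin β = Real.sin β * Real.sin A := by ring
      linarith
    · have h6 := hD (-ht m w τ u.2 + ht m w τ v.2)
      by_cases hv : v.1 = u.1 + 1 + 1
      · rw [n2 hv]
        have h7 : Real.cos (ψ + δ) < Real.cos (A + β) :=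
          Real.cos_lt_cos_of_nonneg_of_le_pi (by linarith) (by linarith) h2
        linarith
      · have h8 := n3 (fun h9 => hu (add_right_cancel h9)) hv (by rw [hδabs]; exact hδ1.le)
        rw [hδabs] at h8
        have h7 : Real.cos (3 * ψ - δ) < Real.cos (A + β) :=
          Real.cos_lt_cos_of_nonneg_of_le_pi (by linarith) (by linarith) (by linarith)
        linarith

end PBar
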