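import Pool.Agent.Work.MP_a5c73b_lc.PB.Defs
import Pool.Agent.Work.MP_a5c73b_lc.PB.CosN

/-!
# SgnPP (S-M): two pendant disks

PROOF. `φ - φ' = ((u.1+1).val - (v.1+1).val)(π - ψ)`, and `cos_nb` with `s = 0` gives
`-cos (φ - φ') <= cos ψ` in all cases (`cos (3ψ) <= cos ψ`, `0 <= ψ <= 3ψ <= π`). With
`cosh >= 1` and `cos β > 0`: `Dq <= cos ψ + sin² β - cos² β = cos ψ - cos (2β) < 0` because
`0 < 2β < ψ <= π`.
-/

namespace PBar

theorem sgn_pp (m w : ℕ) (hm : 1 ≤ m) (ψ τ β δ : ℝ)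
    (hψ : ψ = Real.pi / (4 * m + 1)) (hβ0 : 0 < β) (hβ1 : 2 * β < ψ) (u v : Vt m w) :
    Dq (((u.1 + 1).val : ℝ) * (Real.pi - ψ) + δ) (-ht m w τ u.2) β
      (((v.1 + 1).val : ℝ) * (Real.pi - ψ) + δ) (-ht m w τ v.2) β < 0 := by
  have hπ := Real.pi_pos
  have hm' : (1 : ℝ) ≤ m := by exact_mod_cast hm
  have hψ0 : 0 < ψ := by rw [hψ]; positivity
  have hψ5 : 5 * ψ ≤ Real.pi := by
    rw [hψ, ← mul_div_assoc, div_le_iff₀ (by positivity)]
    nlinarith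
  have hcos : -Real.cos (((u.1 + 1).val : ℝ) * (Real.pi - ψ) + δ -
      (((v.1 + 1).val : ℝ) * (Real.pi - ψ) + δ)) ≤ Real.cos ψ := by
    have e1 : ((u.1 + 1).val : ℝ) * (Real.pi - ψ) + δ -
        (((v.1 + 1).val : ℝ) * (Real.pi - ψ) + δ) =
        (((u.1 + 1).val : ℝ) - (v.1 + 1).val) * (Real.pi - ψ) + 0 := by ring
    rw [e1]
    obtain ⟨h1, h2, h3⟩ := cos_nb m hm ψ hψ (u.1 + 1) (v.1 + 1) 0
    by_cases ha : u.1 + 1 = v.1 + 1 + 1
    · rw [h1 ha, sub_zero]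
    · by_cases hb : v.1 + 1 = u.1 + 1 + 1
      · rw [h2 hb, add_zero]
      · have h4 := h3 ha hb (by rw [abs_zero]; exact hψ0.le)
        rw [abs_zero, sub_zero] at h4
        refine h4.trans (Real.cos_le_cos_of_nonneg_of_le_pi hψ0.le (by linarith) (by linarith))
  have hcosβ : 0 < Real.cos β := Real.cos_pos_of_mem_Ioo ⟨by linarith, by linarith⟩
  have hcosh : 1 ≤ Real.cosh (-ht m w τ u.2 + -ht m w τ v.2) := Real.one_le_cosh _
  have h2β : Real.cos ψ < Real.cos (2 * β) :=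
    Real.cos_lt_cos_of_nonneg_of_le_pi (by linarith) (by linarith) hβ1
  have e2 : Real.cos (2 * β) = Real.cos β * Real.cos β - Real.sin β * Real.sin β := by
    rw [two_mul, Real.cos_add]
  have e3 : Real.cos β * Real.cos β ≤
      Real.cos β * Real.cos β * Real.cosh (-ht m w τ u.2 + -ht m w τ v.2) := by
    have := mul_pos hcosβ hcosβ
    nlinarith
  unfold Dq
  linarith

end PBar
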