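import Pool.Agent.Work.MP_a5c73b_lc.PB.Defs
import Pool.Agent.Work.MP_a5c73b_lc.PB.Form
import Pool.Agent.Work.MP_a5c73b_lc.PB.Par
import Pool.Agent.Work.MP_a5c73b_lc.PB.SgnMM
import Pool.Agent.Work.MP_a5c73b_lc.PB.SgnPM
import Pool.Agent.Work.MP_a5c73b_lc.PB.SgnPP

/-!
# RealC (M): the configuration with real parameters

PROOF. `ψ = π / (4m+1)`, parameters from `par` with `M := 3 * m`. For `i : Vt m w ⊕ Vt m w` put
`(φ, T, b) i = (v.1.val (π - ψ), ht v.2, A)` for `i = inl v`, and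
`((v.1+1).val (π - ψ) + δ, -ht v.2, β)` for `i = inr v`. Let
`x i = s * (rho T b * cos φ)`, `y i = s * (rho T b * sin φ)`,
`r i = s * (rho T b * (cos b * cosh T))`. One has `|ht v.2| <= τ * (3 * m)`:
`|lv + 1/4| <= 3 m w` as `-3mw <= lv <= 3mw - 1`. So `par` gives the bounds for `r` and
`rho > 0`. By `form`, `(x i - x j)² + (y i - y j)² - (r i + r j)²` is a positive multiple of
`Dq` of the two triples, whose sign is given by `sgn_mm`, `sgn_pm` (also with the roles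
exchanged: `Dq` is symmetric, `cos (φ' - φ) = cos (φ - φ')`), `sgn_pp`; adjacency in
`Pg (Hg m w)`: `inl u, inl v` iff adjacent in `Hg m w`; `inl u, inr v` iff `u = v`;
`inr u, inr v` never.
-/

namespace PBar

open Real

private noncomputable def ph (m w : ℕ) (ψ δ : ℝ) : Vt m w ⊕ Vt m w → ℝ
  | .inl v => (v.1.val : ℝ) * (Real.pi - ψ)
  | .inr v => ((v.1 + 1).val : ℝ) * (Real.pi - ψ) + δ

private noncomputable def tT (m w : ℕ) (τ : ℝ) : Vt m w ⊕ Vt m w → ℝ
  | .inl v => ht m w τ v.2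
  | .inr v => -ht m w τ v.2

private noncomputable def bA (m w : ℕ) (A β : ℝ) : Vt m w ⊕ Vt m w → ℝ
  | .inl _ => A
  | .inr _ => β

private lemma abs_ht (m w : ℕ) (hw : 1 ≤ w) (τ : ℝ) (hτ : 0 < τ) (b : Fin (6 * m * w)) :
    |ht m w τ b| ≤ τ * ((3 * m : ℕ) : ℝ) := by
  unfold ht
  have hw' : (0 : ℝ) < w := by exact_mod_cast hw
  have h1 : (lv m w b : ℤ) ≤ 3 * m * w - 1 := by
    unfold lv
    have hb : (b.val : ℤ) < ((6 * m * w : ℕ) : ℤ) := by exact_mod_cast b.2
    push_cast at hb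
    linarith
  have h2 : -(3 * m * w : ℤ) ≤ lv m w b := by
    unfold lv
    have : (0 : ℤ) ≤ (b.val : ℤ) := by positivity
    linarith
  have h1' : (lv m w b : ℝ) ≤ 3 * m * w - 1 := by exact_mod_cast h1
  have h2' : -(3 * m * w : ℝ) ≤ lv m w b := by exact_mod_cast h2
  rw [abs_div, abs_mul, abs_of_pos hτ, abs_of_pos hw', div_le_iff₀ hw']
  have h3 : |(lv m w b : ℝ) + 1 / 4| ≤ 3 * m * w := by
    rw [abs_le]
    constructor <;> linarith
  calc τ * |(lv m w b : ℝ) + 1 / 4| ≤ τ * (3 * m * w) := by gcongr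
    _ = τ * ((3 * m : ℕ) : ℝ) * w := by push_cast; ring

private lemma Dq_comm (φ t B φ' t' B' : ℝ) : Dq φ t B φ' t' B' = Dq φ' t' B' φ t B := by
  unfold Dq
  rw [show φ' - φ = -(φ - φ') by ring, Real.cos_neg, add_comm t' t]
  ring

theorem real_conf (m w : ℕ) (hm : 1 ≤ m) (hw : 1 ≤ w) (ε : ℝ) (hε : 0 < ε) :
    ∃ x y r : Vt m w ⊕ Vt m w → ℝ, (∀ i, 1 < r i ∧ r i < 1 + ε) ∧ ∀ i j, i ≠ j →
      ((Pg (Hg m w)).Adj i j → (r i + r j) ^ 2 < (x i - x j) ^ 2 + (y i - y j) ^ 2) ∧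
      (¬ (Pg (Hg m w)).Adj i j → (x i - x j) ^ 2 + (y i - y j) ^ 2 < (r i + r j) ^ 2) := by
  obtain ⟨ψ, hψ⟩ : ∃ ψ : ℝ, ψ = Real.pi / (4 * m + 1) := ⟨_, rfl⟩
  have hm' : (1 : ℝ) ≤ m := by exact_mod_cast hm
  have hψ0 : 0 < ψ := by rw [hψ]; positivity
  have hψ1 : ψ < Real.pi := by
    rw [hψ, div_lt_iff₀ (by positivity)]
    nlinarith [Real.pi_pos]
  obtain ⟨s, τ, A, β, δ, hs, hτ, hA0, hA1, hA2, hA, hβ0, hβ1, hδ0, hδ1, h1, h2, h4, hF⟩ :=
    par ψ ε (3 * m) w hψ0 hψ1 hε hw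
  have hb : ∀ i : Vt m w ⊕ Vt m w, 0 < Real.sin (bA m w A β i) +
        Real.cos (bA m w A β i) * Real.sinh (tT m w τ i) ∧
      1 < s * (rho (tT m w τ i) (bA m w A β i) *
        (Real.cos (bA m w A β i) * Real.cosh (tT m w τ i))) ∧
      s * (rho (tT m w τ i) (bA m w A β i) *
        (Real.cos (bA m w A β i) * Real.cosh (tT m w τ i))) < 1 + ε := by
    rintro (v | v)
    · exact hF A _ (Or.inl rfl) (abs_ht m w hw τ hτ v.2)
    · refine hF β _ (Or.inr rfl) ?_
      change |-ht m w τ v.2| ≤ _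
      rw [abs_neg]
      exact abs_ht m w hw τ hτ v.2
  have hrho : ∀ i : Vt m w ⊕ Vt m w, 0 < rho (tT m w τ i) (bA m w A β i) := by
    intro i
    unfold rho
    exact div_pos one_pos (hb i).1
  -- signs
  have hsg : ∀ i j : Vt m w ⊕ Vt m w, i ≠ j →
      ((Pg (Hg m w)).Adj i j → 0 < Dq (ph m w ψ δ i) (tT m w τ i) (bA m w A β i)
        (ph m w ψ δ j) (tT m w τ j) (bA m w A β j)) ∧
      (¬ (Pg (Hg m w)).Adj i j → Dq (ph m w ψ δ i) (tT m w τ i) (bA m w A β i)
        (ph m w ψ δ j) (tT m w τ j) (bA m w A β j) < 0) := by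
    rintro (u | u) (v | v) hij
    · have huv : u ≠ v := fun e => hij (by rw [e])
      have := sgn_mm m w hm hw ψ τ A hψ hτ hA0 hA1 hA2 hA u v huv
      constructor
      · intro h
        refine this.1 ?_
        rcases h with ⟨a, b, ha, hb, hab⟩ | ⟨a, ha, hb⟩ | ⟨a, ha, hb⟩
        · rw [Sum.inl_injective ha, Sum.inl_injective hb]
          exact hab
        · exact absurd hb (by simp)
        · exact absurd ha (by simp)
      · intro h
        exact this.2 fun hab => h (Or.inl ⟨u, v, rfl, rfl, hab⟩)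
    · have := sgn_pm m w hm hw ψ τ A β δ hψ hτ hA0 hA1 hβ0 hβ1 hδ0 hδ1 h1 h2 h4 v u
      rw [Dq_comm]
      constructor
      · intro h
        refine this.1 ?_
        rcases h with ⟨a, b, ha, hb, hab⟩ | ⟨a, ha, hb⟩ | ⟨a, ha, hb⟩
        · exact absurd hb (by simp)
        · rw [Sum.inl_injective ha, Sum.inr_injective hb]
        · exact absurd ha (by simp)
      · intro h
        exact this.2 fun e => h (Or.inr (Or.inl ⟨u, rfl, by rw [e]⟩))
    · have := sgn_pm m w hm hw ψ τ A β δ hψ hτ hA0 hA1 hβ0 hβ1 hδ0 hδ1 h1 h2 h4 u v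
      constructor
      · intro h
        refine this.1 ?_
        rcases h with ⟨a, b, ha, hb, hab⟩ | ⟨a, ha, hb⟩ | ⟨a, ha, hb⟩
        · exact absurd ha (by simp)
        · exact absurd ha (by simp)
        · rw [Sum.inr_injective ha, Sum.inl_injective hb]
      · intro h
        exact this.2 fun e => h (Or.inr (Or.inr ⟨u, rfl, by rw [e]⟩))
    · have := sgn_pp m w hm ψ τ β δ hψ hβ0 hβ1 u v
      constructor
      · intro h
        exfalso
        rcases h with ⟨a, b, ha, hb, hab⟩ | ⟨a, ha, hb⟩ | ⟨a, ha, hb⟩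
        · exact absurd ha (by simp)
        · exact absurd ha (by simp)
        · exact absurd hb (by simp)
      · intro _
        exact this
  refine ⟨fun i => s * (rho (tT m w τ i) (bA m w A β i) * Real.cos (ph m w ψ δ i)),
    fun i => s * (rho (tT m w τ i) (bA m w A β i) * Real.sin (ph m w ψ δ i)),
    fun i => s * (rho (tT m w τ i) (bA m w A β i) *
      (Real.cos (bA m w A β i) * Real.cosh (tT m w τ i))), fun i => (hb i).2, ?_⟩
  intro i j hij
  have hf := form s (ph m w ψ δ i) (tT m w τ i) (bA m w A β i) (ph m w ψ δ j) (tT m w τ j)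
    (bA m w A β j) (hb i).1.ne' (hb j).1.ne'
  have hpos : 0 < 2 * s ^ 2 * (rho (tT m w τ i) (bA m w A β i) *
      rho (tT m w τ j) (bA m w A β j)) :=
    mul_pos (by positivity) (mul_pos (hrho i) (hrho j))
  constructor
  · intro h
    have h3 := mul_pos hpos ((hsg i j hij).1 h)
    rw [← hf] at h3
    linarith
  · intro h
    have h3 := mul_neg_of_pos_of_neg hpos ((hsg i j hij).2 h)
    rw [← hf] at h3
    linarith

end PBar
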