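import Pool.Agent.Work.MP_a5c73b_lc.PB.Defs
import Pool.Agent.Work.MP_a5c73b_lc.PB.Comb
import Pool.Agent.Work.MP_a5c73b_lc.PB.RealC
import Pool.Agent.Work.MP_a5c73b_lc.PB.RatC

/-!
# Main: the barrier theorem, from the modules
-/

namespace PBar

theorem main (k t m : ℕ) (ht : 1 ≤ t) (hm : 1 ≤ m) (ε : ℝ) (hε : 0 < ε) :
    ∃ (ι : Type) (_ : Fintype ι) (x y r : ι → ℚ),
      Fintype.card ι ≤ 60 * (k + 1) * t ^ 2 * m ^ 2 ∧
      (∀ i, 1 ≤ r i ∧ (r i : ℝ) ≤ 1 + ε) ∧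
      ∀ 𝓑 : Finset (Set ι),
        (∀ B ∈ 𝓑, Perf (diskG x y r) B ∨ ¬ OddPack (diskG x y r) B (k + 1) ∨
          GridFree (diskG x y r) B t) →
        (∀ K : Finset ι, (diskG x y r).IsMaximumClique K →
          ∃ B ∈ 𝓑, (K : Set ι) ⊆ B) →
        (16 * k + 16) ^ m ≤ 𝓑.card * (16 * k + 15) ^ m := by
  have hM : 1 ≤ t * m := Nat.mul_pos ht hm
  obtain ⟨x, y, r, hr, h⟩ := real_conf (t * m) (k + 1) hM (by omega) ε hε
  obtain ⟨x', y', r', hr', h'⟩ := rat_conf (fun i j => (Pg (Hg (t * m) (k + 1))).Adj i j) ε x y r hr h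
  refine ⟨Vt (t * m) (k + 1) ⊕ Vt (t * m) (k + 1), inferInstance, x', y', r', ?_, ?_, ?_⟩
  · have e : Fintype.card (Vt (t * m) (k + 1) ⊕ Vt (t * m) (k + 1)) =
        2 * ((4 * (t * m) + 1) * (6 * (t * m) * (k + 1))) := by
      rw [Fintype.card_sum, Fintype.card_prod, ZMod.card, Fintype.card_fin]
      ring
    rw [e]
    have h1 : 4 * (t * m) + 1 ≤ 5 * (t * m) := by omega
    calc 2 * ((4 * (t * m) + 1) * (6 * (t * m) * (k + 1)))
        ≤ 2 * ((5 * (t * m)) * (6 * (t * m) * (k + 1))) := by gcongr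
      _ = 60 * (k + 1) * t ^ 2 * m ^ 2 := by ring
  · intro i
    exact ⟨(hr' i).1.le, (hr' i).2.le⟩
  · have hG : diskG x' y' r' = (Pg (Hg (t * m) (k + 1)))ᶜ := by
      ext i j
      rw [SimpleGraph.compl_adj]
      constructor
      · rintro ⟨hij, hle⟩
        refine ⟨hij, fun hadj => ?_⟩
        exact absurd ((h' i j hij).1 hadj) (not_lt.mpr hle)
      · rintro ⟨hij, hadj⟩
        exact ⟨hij, ((h' i j hij).2 hadj).le⟩
    intro 𝓑 h1 h2
    rw [hG] at h1 h2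
    have := comb m t (k + 1) hm ht (by omega) 𝓑 h1 h2
    have e1 : 16 * (k + 1) = 16 * k + 16 := by ring
    rw [e1] at this
    simpa using this

end PBar
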