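import Mathlib

/-!
# Indep (S-M): events depending on disjoint sets of coordinates

PROOF. Involution on pairs `(c, d)` of functions: exchange the coordinates outside `S`, that is
`Φ (c, d) = (fun v => if v ∈ S then c v else d v, fun v => if v ∈ S then d v else c v)`.
It maps `{c | P c ∧ Q c} × univ` onto `{c | P c} × {d | Q d}`: if `P c ∧ Q c` then the first
component agrees with `c` on `S`, so `P` holds, and the second component agrees with `c` outside
`S`, so `Q` holds; conversely if `P c` and `Q d`, the first component satisfies `P` (agrees with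
`c` on `S`) and `Q` (agrees with `d` outside `S`). Compare cardinalities
(`Finset.card_nbij'`, `Finset.card_product`, with `card univ = q ^ |V|`).
-/

namespace PBar

open Classical in
theorem indep {V : Type} [Fintype V] (q : ℕ) (S : Set V) (P Q : (V → Fin q) → Prop)
    (hP : ∀ c d : V → Fin q, (∀ v ∈ S, c v = d v) → (P c ↔ P d))
    (hQ : ∀ c d : V → Fin q, (∀ v ∉ S, c v = d v) → (Q c ↔ Q d)) :
    (Finset.univ.filter (fun c => P c ∧ Q c)).card * q ^ Fintype.card V =
      (Finset.univ.filter P).card * (Finset.univ.filter Q).card := by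
  have hc : q ^ Fintype.card V = (Finset.univ : Finset (V → Fin q)).card := by
    rw [Finset.card_univ, Fintype.card_fun, Fintype.card_fin]
  rw [hc, ← Finset.card_product, ← Finset.card_product]
  have e1 : ∀ x : (V → Fin q) × (V → Fin q),
      ((fun v => if v ∈ S then (if v ∈ S then x.1 v else x.2 v) else
          (if v ∈ S then x.2 v else x.1 v)),
       (fun v => if v ∈ S then (if v ∈ S then x.2 v else x.1 v) else
          (if v ∈ S then x.1 v else x.2 v))) = x := by
    intro x
    refine Prod.ext ?_ ?_
    · funext v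
      by_cases hv : v ∈ S <;> simp [hv]
    · funext v
      by_cases hv : v ∈ S <;> simp [hv]
  refine Finset.card_nbij'
    (fun x => ((fun v => if v ∈ S then x.1 v else x.2 v),
      (fun v => if v ∈ S then x.2 v else x.1 v)))
    (fun x => ((fun v => if v ∈ S then x.1 v else x.2 v),
      (fun v => if v ∈ S then x.2 v else x.1 v))) ?_ ?_ ?_ ?_
  · intro x hx
    rw [Finset.mem_coe, Finset.mem_product, Finset.mem_filter] at hx
    rw [Finset.mem_coe, Finset.mem_product, Finset.mem_filter, Finset.mem_filter]
    obtain ⟨⟨-, h1, h2⟩, -⟩ := hx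
    refine ⟨⟨Finset.mem_univ _, ?_⟩, ⟨Finset.mem_univ _, ?_⟩⟩
    · refine (hP x.1 _ ?_).mp h1
      intro v hv
      simp [hv]
    · refine (hQ x.1 _ ?_).mp h2
      intro v hv
      simp [hv]
  · intro x hx
    rw [Finset.mem_coe, Finset.mem_product, Finset.mem_filter, Finset.mem_filter] at hx
    rw [Finset.mem_coe, Finset.mem_product, Finset.mem_filter]
    obtain ⟨⟨-, h1⟩, ⟨-, h2⟩⟩ := hx
    refine ⟨⟨Finset.mem_univ _, ?_, ?_⟩, Finset.mem_univ _⟩
    · refine (hP x.1 _ ?_).mp h1
      intro v hv
      simp [hv]
    · refine (hQ x.2 _ ?_).mp h2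
      intro v hv
      simp [hv]
  · intro x _
    exact e1 x
  · intro x _
    exact e1 x

end PBar
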